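import Mathlib

set_option autoImplicit false

open Set Filter Topology Metric MeasureTheory

namespace Pool.Agent.Results.MP_6ac3f6_an.LowerBoundOne

/-! A lower bound `A* ≥ 1` for the supremum of `alpha f = limsup T(r, f) / (-log (1 - r))` over
meromorphic functions `f` in the unit disc with `f ≠ 0` and `f' ≠ 1`.

Plan: write `f = 1 / w`. A zero-free analytic `G` with `|G| ≤ (3/16) (1 - |z|)^(-2)` is built as the
exponential of a lacunary sum of the functions `phi (z ^ m) = -2 z^m / (1 - z^m)`, so that the mean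
of `log⁺ |G|` is close to `2 log (1 / (1 - r))` for some radii `r` tending to `1`. The Riccati
equation `w' + w^2 = G` is solved in the whole disc with `|w| ≤ (1/4) (1 - |z|)^(-1)`. The mean value
inequality for `log⁺ |w|` on discs and the Cauchy estimate for `w'` show that the mean of
`log⁺ |w|` is close to `log (1 / (1 - r))`. Jensen's formula gives `T(r, f)`. -/

/-- The multiplicity of the pole of `f` at `z`; it is zero if `f` has no pole at `z`. -/
noncomputable def poleMult (f : ℂ → ℂ) (z : ℂ) : ℕ := (-(meromorphicOrderAt f z).untop₀).toNat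

/-- `nPoles f t` is the number `n(t, f)` of poles of `f` in `|z| ≤ t`, with multiplicity. -/
noncomputable def nPoles (f : ℂ → ℂ) (t : ℝ) : ℝ := ∑ᶠ z ∈ closedBall (0 : ℂ) t, (poleMult f z : ℝ)

/-- The proximity function `m(r, f)`, the mean of `log⁺ |f|` over the circle `|z| = r`. -/
noncomputable def prox (f : ℂ → ℂ) (r : ℝ) : ℝ :=
  (2 * Real.pi)⁻¹ * ∫ θ in (0 : ℝ)..2 * Real.pi, Real.posLog ‖f (r * Complex.exp (θ * Complex.I))‖

/-- The counting function `N(r, f)`. -/
noncomputable def count (f : ℂ → ℂ) (r : ℝ) : ℝ :=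
  (∫ t in (0 : ℝ)..r, (nPoles f t - nPoles f 0) / t) + nPoles f 0 * Real.log r

/-- The Nevanlinna characteristic `T(r, f) = m(r, f) + N(r, f)`. -/
noncomputable def charT (f : ℂ → ℂ) (r : ℝ) : ℝ := prox f r + count f r

/-- `alpha f` is the limsup of `T(r, f) / (-log (1 - r))` as `r` tends to `1` from below. -/
noncomputable def alpha (f : ℂ → ℂ) : EReal :=
  limsup (fun r : ℝ => ((charT f r / (-Real.log (1 - r)) : ℝ) : EReal)) (𝓝[<] 1)

/-- The class of the problem. -/
structure InClass (f : ℂ → ℂ) : Prop where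
  /-- `f` is meromorphic in the unit disc (with its correct values at all non-poles) -/
  meromorphic : MeromorphicNFOn f (ball 0 1)
  /-- `alpha f` is finite -/
  finite : alpha f < ⊤
  /-- `f` has no zeros in the disc -/
  no_zero : ∀ z ∈ ball (0 : ℂ) 1, meromorphicOrderAt f z ≤ 0
  /-- `f'` is different from `1` at every point of the disc that is not a pole -/
  deriv_ne_one : ∀ z ∈ ball (0 : ℂ) 1, AnalyticAt ℂ f z → deriv f z ≠ 1

lemma radial {F f : ℂ → ℂ} {B b : ℝ → ℝ} {R : ℝ} (hF : ∀ z, ‖z‖ < R → HasDerivAt F (f z) z)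
    (hB : ∀ t, 0 ≤ t → t < R → HasDerivAt B (b t) t)
    (hb : ∀ z, ‖z‖ < R → ‖f z‖ ≤ b ‖z‖) (h0 : ‖F 0‖ ≤ B 0) {z : ℂ} (hz : ‖z‖ < R) :
    ‖F z‖ ≤ B ‖z‖ := by
  rcases eq_or_ne z 0 with rfl | hz0
  · simpa using h0
  have hzp : 0 < ‖z‖ := norm_pos_iff.2 hz0
  have hzc : (‖z‖ : ℂ) ≠ 0 := by exact_mod_cast hzp.ne'
  set e : ℂ := z / ‖z‖ with he
  have he1 : ‖e‖ = 1 := by
    rw [he, norm_div, Complex.norm_real, norm_norm, div_self hzp.ne']
  have hte : ∀ t : ℝ, 0 ≤ t → ‖(t : ℂ) * e‖ = t := fun t ht => by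
    rw [norm_mul, he1, mul_one, Complex.norm_real, Real.norm_of_nonneg ht]
  have hd : ∀ t : ℝ, 0 ≤ t → t < R → HasDerivAt (fun t : ℝ => F (t * e)) (f (t * e) * e) t := by
    intro t ht htR
    have h1 : HasDerivAt F (f (t * e)) ((t : ℂ) * e) := hF _ (by rw [hte t ht]; exact htR)
    have h2 : HasDerivAt (fun w : ℂ => w * e) e (t : ℂ) := by
      simpa using (hasDerivAt_id (t : ℂ)).mul_const e
    exact (HasDerivAt.comp (t : ℂ) h1 h2).comp_ofReal
  have key := image_norm_le_of_norm_deriv_right_le_deriv_boundary' (f := fun t : ℝ => F (t * e))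
    (f' := fun t => f (t * e) * e) (a := 0) (b := ‖z‖) (B := B) (B' := b)
    (fun t ht => (hd t ht.1 (ht.2.trans_lt hz)).continuousAt.continuousWithinAt)
    (fun t ht => (hd t ht.1 (ht.2.trans hz)).hasDerivWithinAt)
    (by simpa using h0)
    (fun t ht => (hB t ht.1 (ht.2.trans_lt hz)).continuousAt.continuousWithinAt)
    (fun t ht => (hB t ht.1 (ht.2.trans hz)).hasDerivWithinAt)
    (fun t ht => by
      rw [norm_mul, he1, mul_one]
      have := hb (t * e) (by rw [hte t ht.1]; exact ht.2.trans hz)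
      rwa [hte t ht.1] at this)
  have h := key (x := ‖z‖) ⟨hzp.le, le_rfl⟩
  have hz' : (‖z‖ : ℂ) * e = z := by rw [he]; field_simp
  simpa [hz'] using h

theorem riccati {G : ℂ → ℂ} (hG : DifferentiableOn ℂ G (ball 0 1))
    (hb : ∀ z, ‖z‖ < 1 → ‖G z‖ ≤ 3 / 16 / (1 - ‖z‖) ^ 2) :
    ∃ w : ℂ → ℂ, DifferentiableOn ℂ w (ball 0 1) ∧ (∀ z, ‖z‖ < 1 → deriv w z + w z ^ 2 = G z) ∧
      (∀ z, ‖z‖ < 1 → ‖w z‖ ≤ 1 / 4 / (1 - ‖z‖)) ∧ w 0 = 1 / 4 := by
  have hstep : ∀ w : {w : ℂ → ℂ // DifferentiableOn ℂ w (ball 0 1) ∧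
      ∀ z, ‖z‖ < 1 → ‖w z‖ ≤ 1 / 4 / (1 - ‖z‖)},
      ∃ w' : {w : ℂ → ℂ // DifferentiableOn ℂ w (ball 0 1) ∧
      ∀ z, ‖z‖ < 1 → ‖w z‖ ≤ 1 / 4 / (1 - ‖z‖)}, w'.1 0 = 1 / 4 ∧
      ∀ z, ‖z‖ < 1 → HasDerivAt w'.1 (G z - w.1 z ^ 2) z := by
    rintro ⟨w, hw, hwb⟩
    have hd : DifferentiableOn ℂ (fun z => G z - w z ^ 2) (ball 0 1) := hG.sub (hw.pow 2)
    obtain ⟨F, hF0, hF⟩ := hd.isExactOn_ball.with_val_at 0 (1 / 4)
    have hF' : ∀ z, ‖z‖ < 1 → HasDerivAt F (G z - w z ^ 2) z := fun z hz =>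
      hF z (by simpa using hz)
    refine ⟨⟨F, fun z hz => (hF z hz).differentiableAt.differentiableWithinAt, ?_⟩, hF0, hF'⟩
    intro z hz
    refine radial (B := fun t => 1 / 4 / (1 - t)) (b := fun t => 1 / 4 / (1 - t) ^ 2) hF' ?_ ?_ ?_ hz
    · intro t _ ht
      have h1 : (1 - t) ≠ 0 := by linarith
      have h2 : HasDerivAt (fun t : ℝ => 1 - t) (-1) t := by
        simpa using (hasDerivAt_id t).const_sub 1
      have h3 := (h2.fun_inv h1).const_mul (1 / 4)
      have h4 : (fun t : ℝ => 1 / 4 / (1 - t)) = fun t => 1 / 4 * (1 - t)⁻¹ := by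
        ext t; rw [div_eq_mul_inv]
      rw [h4]
      refine h3.congr_deriv ?_
      ring
    · intro z hz
      have h1 : (0 : ℝ) < 1 - ‖z‖ := by linarith
      refine (norm_sub_le _ _).trans ?_
      rw [norm_pow]
      have h2 := hb z hz
      have h3 := hwb z hz
      have h4 : ‖w z‖ ^ 2 ≤ (1 / 4 / (1 - ‖z‖)) ^ 2 := by gcongr
      refine (add_le_add h2 h4).trans (le_of_eq ?_)
      field_simp
      ring
    · rw [hF0]; norm_num
  choose step hs0 hs1 using hstep
  set W : ℕ → {w : ℂ → ℂ // DifferentiableOn ℂ w (ball 0 1) ∧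
      ∀ z, ‖z‖ < 1 → ‖w z‖ ≤ 1 / 4 / (1 - ‖z‖)} := fun n => step^[n] ⟨fun _ => 1 / 4,
        differentiableOn_const _, fun z hz => by
          have h1 : (0 : ℝ) < 1 - ‖z‖ := by linarith
          rw [le_div_iff₀ h1]
          have : ‖(1 / 4 : ℂ)‖ = 1 / 4 := by norm_num
          rw [this]
          nlinarith [norm_nonneg z]⟩ with hW
  have hWs : ∀ n, W (n + 1) = step (W n) := fun n => by
    simp only [hW, Function.iterate_succ_apply']
  have hW0 : ∀ n, (W n).1 0 = 1 / 4 := by
    intro n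
    cases n with
    | zero => simp [hW]
    | succ n => rw [hWs]; exact hs0 _
  have hWd : ∀ n z, ‖z‖ < 1 → HasDerivAt (W (n + 1)).1 (G z - (W n).1 z ^ 2) z := by
    intro n z hz
    rw [hWs]
    exact hs1 _ z hz
  -- differences
  have hdiff : ∀ R : ℝ, 0 < R → R < 1 → ∀ n z, ‖z‖ < R →
      ‖(W (n + 1)).1 z - (W n).1 z‖ ≤ (1 / (1 - R)) * Real.exp ((1 / (1 - R)) * ‖z‖) / 2 ^ n := by
    intro R hR0 hR n
    set lam := 1 / (1 - R) with hlam
    have hl : 0 < lam := by rw [hlam]; exact one_div_pos.2 (by linarith)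
    have hbd : ∀ n z, ‖z‖ < R → ‖(W n).1 z‖ ≤ lam / 4 := by
      intro n z hz
      refine ((W n).2.2 z (hz.trans hR)).trans ?_
      rw [hlam, div_div, div_div, div_le_div_iff₀ (by nlinarith) (by nlinarith)]
      linarith
    induction n with
    | zero =>
      intro z hz
      refine (norm_sub_le _ _).trans ?_
      have h1 := hbd 1 z hz
      have h2 := hbd 0 z hz
      have h3 : 1 ≤ Real.exp (lam * ‖z‖) := Real.one_le_exp (by positivity)
      simp only [pow_zero, div_one, zero_add]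
      nlinarith
    | succ n ih =>
      intro z hz
      refine radial (F := fun z => (W (n + 1 + 1)).1 z - (W (n + 1)).1 z)
        (f := fun z => (G z - (W (n + 1)).1 z ^ 2) - (G z - (W n).1 z ^ 2)) (R := R)
        (B := fun t => lam * Real.exp (lam * t) / 2 ^ (n + 1))
        (b := fun t => lam * (Real.exp (lam * t) * lam) / 2 ^ (n + 1)) ?_ ?_ ?_ ?_ hz
      · intro z hz
        exact (hWd (n + 1) z (hz.trans hR)).sub (hWd n z (hz.trans hR))
      · intro t _ _
        have h1 : HasDerivAt (fun t : ℝ => lam * t) lam t := by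
          simpa using (hasDerivAt_id t).const_mul lam
        exact ((h1.exp).const_mul lam).div_const _
      · intro z hz
        have h1 := ih z hz
        have h2 := hbd (n + 1) z hz
        have h3 := hbd n z hz
        have h4 : G z - (W (n + 1)).1 z ^ 2 - (G z - (W n).1 z ^ 2) =
            -(((W (n + 1)).1 z + (W n).1 z) * ((W (n + 1)).1 z - (W n).1 z)) := by ring
        rw [h4, norm_neg, norm_mul]
        have h5 : ‖(W (n + 1)).1 z + (W n).1 z‖ ≤ lam / 2 := (norm_add_le _ _).trans (by linarith)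
        calc ‖(W (n + 1)).1 z + (W n).1 z‖ * ‖(W (n + 1)).1 z - (W n).1 z‖
            ≤ (lam / 2) * (lam * Real.exp (lam * ‖z‖) / 2 ^ n) := by gcongr
          _ = lam * (Real.exp (lam * ‖z‖) * lam) / 2 ^ (n + 1) := by
            rw [pow_succ]; field_simp
      · simp only [hW0, sub_self, norm_zero]
        positivity
  have hdist : ∀ R : ℝ, 0 < R → R < 1 → ∃ C : ℝ, ∀ n z, ‖z‖ < R →
      dist ((W n).1 z) ((W (n + 1)).1 z) ≤ C / 2 / 2 ^ n := by
    intro R hR0 hR
    refine ⟨2 * ((1 / (1 - R)) * Real.exp ((1 / (1 - R)))), fun n z hz => ?_⟩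
    rw [dist_comm, dist_eq_norm]
    refine (hdiff R hR0 hR n z hz).trans ?_
    have hl : 0 < 1 / (1 - R) := one_div_pos.2 (by linarith)
    have h1 : Real.exp ((1 / (1 - R)) * ‖z‖) ≤ Real.exp (1 / (1 - R)) := by
      apply Real.exp_le_exp.2
      nlinarith [norm_nonneg z]
    have h2 : 2 * (1 / (1 - R) * Real.exp (1 / (1 - R))) / 2 = 1 / (1 - R) * Real.exp (1 / (1 - R)) := by
      ring
    rw [h2]
    gcongr
  have hlim : ∀ z, ‖z‖ < 1 → ∃ l, Tendsto (fun n => (W n).1 z) atTop (𝓝 l) := by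
    intro z hz
    obtain ⟨C, hC⟩ := hdist ((‖z‖ + 1) / 2) (by positivity) (by linarith)
    exact cauchySeq_tendsto_of_complete (cauchySeq_of_le_geometric_two (C := C)
      fun n => hC n z (by linarith))
  choose! w hw using hlim
  have hunif : TendstoLocallyUniformlyOn (fun n => (W n).1) w atTop (ball 0 1) := by
    rw [Metric.tendstoLocallyUniformlyOn_iff]
    intro ε hε x hx
    have hx1 : ‖x‖ < 1 := by simpa using hx
    set R := (‖x‖ + 1) / 2 with hR
    have hR0 : 0 < R := by positivity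
    have hR1 : R < 1 := by rw [hR]; linarith
    obtain ⟨C, hC⟩ := hdist R hR0 hR1
    refine ⟨ball 0 R, mem_nhdsWithin_of_mem_nhds (isOpen_ball.mem_nhds (by
      simp only [mem_ball_zero_iff]; rw [hR]; linarith)), ?_⟩
    have hC0 : Tendsto (fun n : ℕ => C / 2 ^ n) atTop (𝓝 0) := by
      have := (tendsto_pow_atTop_nhds_zero_of_lt_one (r := (1 / 2 : ℝ)) (by norm_num)
        (by norm_num)).const_mul C
      simpa [div_eq_mul_inv] using this
    filter_upwards [hC0.eventually (gt_mem_nhds hε)] with n hn y hy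
    have hy1 : ‖y‖ < R := by simpa using hy
    rw [dist_comm]
    exact (dist_le_of_le_geometric_two_of_tendsto (C := C) (fun n => hC n y hy1)
      (hw y (hy1.trans hR1)) n).trans_lt hn
  have hwd : DifferentiableOn ℂ w (ball 0 1) :=
    hunif.differentiableOn (Eventually.of_forall fun n => (W n).2.1) isOpen_ball
  refine ⟨w, hwd, ?_, ?_, ?_⟩
  · intro z hz
    have h1 := hunif.deriv (Eventually.of_forall fun n => (W n).2.1) isOpen_ball
    have h2 : Tendsto (fun n => deriv (W n).1 z) atTop (𝓝 (deriv w z)) :=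
      h1.tendsto_at (by simpa using hz)
    have h3 : Tendsto (fun n => deriv (W (n + 1)).1 z) atTop (𝓝 (deriv w z)) :=
      h2.comp (tendsto_add_atTop_nat 1)
    have h4 : Tendsto (fun n => deriv (W (n + 1)).1 z) atTop (𝓝 (G z - w z ^ 2)) := by
      have : ∀ n, deriv (W (n + 1)).1 z = G z - (W n).1 z ^ 2 := fun n => (hWd n z hz).deriv
      simp only [this]
      exact tendsto_const_nhds.sub ((hw z hz).pow 2)
    rw [tendsto_nhds_unique h3 h4]
    ring
  · intro z hz
    exact le_of_tendsto (hw z hz).norm (Eventually.of_forall fun n => (W n).2.2 z hz)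
  · have := hw 0 (by simp)
    simp only [hW0] at this
    exact (tendsto_nhds_unique this tendsto_const_nhds)

lemma posLog_submean {w : ℂ → ℂ} {c : ℂ} {t : ℝ} (ht : 0 < t)
    (hw : AnalyticOnNhd ℂ w (closedBall c t)) :
    Real.posLog ‖w c‖ ≤ Real.circleAverage (fun z => Real.posLog ‖w z‖) c t := by
  have habs : |t| = t := abs_of_pos ht
  rcases le_or_gt ‖w c‖ 1 with h1 | h1
  · have : Real.posLog ‖w c‖ = 0 := by
      rw [Real.posLog_eq_zero_iff]; simpa using h1
    rw [this]
    exact Real.circleAverage_nonneg_of_nonneg fun z _ => Real.posLog_nonneg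
  · have hc0 : w c ≠ 0 := by
      intro h; rw [h] at h1; simp at h1; linarith
    have hj := AnalyticOnNhd.circleAverage_log_norm (c := c) (R := t) (f := w) ht.ne'
      (by rw [habs]; exact hw) hc0
    rw [habs] at hj
    have hfs : 0 ≤ ∑ᶠ u, (MeromorphicOn.divisor w (closedBall c t) u : ℝ) *
        Real.log (t * ‖c - u‖⁻¹) := by
      apply finsum_nonneg
      intro u
      by_cases hu : u ∈ closedBall c t
      · have h2 : 0 ≤ MeromorphicOn.divisor w (closedBall c t) u :=
          MeromorphicOn.AnalyticOnNhd.divisor_nonneg hw u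
        refine mul_nonneg (by exact_mod_cast h2) ?_
        rcases eq_or_ne c u with rfl | hcu
        · simp
        · have h3 : 0 < ‖c - u‖ := norm_pos_iff.2 (sub_ne_zero.2 hcu)
          apply Real.log_nonneg
          rw [← div_eq_mul_inv, one_le_div h3]
          rw [mem_closedBall, dist_comm, dist_eq_norm] at hu
          exact hu
      · simp [hu]
    have h4 : Real.posLog ‖w c‖ = Real.log ‖w c‖ := Real.posLog_eq_log (by
      rw [abs_of_nonneg (norm_nonneg _)]; exact h1.le)
    have hm : MeromorphicOn w (sphere c |t|) := by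
      rw [habs]; exact (hw.mono sphere_subset_closedBall).meromorphicOn
    have h5 : Real.circleAverage (fun z => Real.log ‖w z‖) c t ≤
        Real.circleAverage (fun z => Real.posLog ‖w z‖) c t :=
      Real.circleAverage_mono hm.circleIntegrable_log_norm hm.circleIntegrable_posLog_norm
        fun z _ => by rw [Real.posLog_apply]; exact le_max_right _ _
    rw [h4]
    linarith

lemma area_submean {w : ℂ → ℂ} {c : ℂ} {t : ℝ} (ht : 0 < t)
    (hw : AnalyticOnNhd ℂ w (closedBall c t)) :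
    Real.pi * t ^ 2 * Real.posLog ‖w c‖ ≤ ∫ z in ball c t, Real.posLog ‖w z‖ := by
  set V : ℂ → ℝ := fun z => Real.posLog ‖w z‖ with hV
  have hVc : ContinuousOn V (closedBall c t) :=
    Real.continuous_posLog.comp_continuousOn hw.continuousOn.norm
  -- the polar parametrisation
  set Φ : ℝ × ℝ → ℂ := fun p => circleMap c p.1 p.2 with hΦ
  have hΦc : Continuous Φ := by
    simp only [hΦ, circleMap]; fun_prop
  have hΦm : ∀ p : ℝ × ℝ, 0 ≤ p.1 → p.1 ≤ t → Φ p ∈ closedBall c t := by
    intro p h0 h1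
    simp only [hΦ, mem_closedBall, dist_eq_norm, circleMap_sub_center, norm_circleMap_zero,
      abs_of_nonneg h0]
    exact h1
  have hcont : ContinuousOn (fun p : ℝ × ℝ => p.1 * V (Φ p)) (Icc 0 t ×ˢ Icc (-Real.pi) Real.pi) :=
    continuous_fst.continuousOn.mul (hVc.comp hΦc.continuousOn fun p hp =>
      hΦm p hp.1.1 hp.1.2)
  have hint : IntegrableOn (fun p : ℝ × ℝ => p.1 * V (Φ p)) (Ioo 0 t ×ˢ Ioo (-Real.pi) Real.pi)
      (volume.prod volume) := by
    have := hcont.integrableOn_compact (μ := volume) (isCompact_Icc.prod isCompact_Icc)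
    exact this.mono_set (prod_mono Ioo_subset_Icc_self Ioo_subset_Icc_self)
  have h1 : ∫ z in ball c t, V z = ∫ p in Ioo 0 t ×ˢ Ioo (-Real.pi) Real.pi, p.1 * V (Φ p)
      ∂(volume.prod volume) := by
    have e1 : ∫ z in ball c t, V z = ∫ z, (ball c t).indicator V (c + z) := by
      rw [integral_add_left_eq_self (fun z => (ball c t).indicator V z) c]
      exact (integral_indicator measurableSet_ball).symm
    rw [e1, ← Complex.integral_comp_polarCoord_symm, polarCoord_target,
      ← integral_indicator (measurableSet_Ioi.prod measurableSet_Ioo),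
      ← Measure.volume_eq_prod, ← integral_indicator (measurableSet_Ioo.prod measurableSet_Ioo)]
    congr 1
    ext p
    have hp : c + Complex.polarCoord.symm p = Φ p := by
      rw [Complex.polarCoord_symm_apply]
      simp only [hΦ, circleMap, Complex.exp_mul_I, Complex.ofReal_cos, Complex.ofReal_sin]
    by_cases hp1 : p ∈ Ioi (0 : ℝ) ×ˢ Ioo (-Real.pi) Real.pi
    · rw [indicator_of_mem hp1, hp, smul_eq_mul]
      by_cases hp2 : p.1 < t
      · have m1 : Φ p ∈ ball c t := by
          simp only [hΦ, mem_ball, dist_eq_norm, circleMap_sub_center, norm_circleMap_zero,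
            abs_of_pos (show 0 < p.1 from hp1.1)]
          exact hp2
        rw [indicator_of_mem m1, indicator_of_mem (show p ∈ Ioo 0 t ×ˢ Ioo (-Real.pi) Real.pi from
          ⟨⟨hp1.1, hp2⟩, hp1.2⟩)]
      · have m1 : Φ p ∉ ball c t := by
          simp only [hΦ, mem_ball, dist_eq_norm, circleMap_sub_center, norm_circleMap_zero,
            abs_of_pos (show 0 < p.1 from hp1.1)]
          exact hp2
        rw [indicator_of_notMem m1, indicator_of_notMem (fun h => hp2 h.1.2), mul_zero]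
    · rw [indicator_of_notMem hp1, indicator_of_notMem (fun h => hp1 ⟨h.1.1, h.2⟩)]
  rw [h1, setIntegral_prod _ hint]
  have hinner : ∀ ρ : ℝ, ρ ∈ Ioo 0 t → 2 * Real.pi * V c * ρ ≤
      ∫ φ in Ioo (-Real.pi) Real.pi, ρ * V (Φ (ρ, φ)) := by
    intro ρ hρ
    have hs := posLog_submean (w := w) (c := c) (t := ρ) hρ.1
      (hw.mono (closedBall_subset_closedBall hρ.2.le))
    have e2 : ∫ φ in Ioo (-Real.pi) Real.pi, ρ * V (Φ (ρ, φ)) =
        ρ * (2 * Real.pi * Real.circleAverage V c ρ) := by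
      rw [integral_const_mul, Real.circleAverage_eq_integral_add (-Real.pi),
        intervalIntegral.integral_comp_add_right (fun x => V (circleMap c ρ x)),
        ← integral_Ioc_eq_integral_Ioo, ← intervalIntegral.integral_of_le (by
          linarith [Real.pi_pos])]
      have : (2 * Real.pi + -Real.pi) = Real.pi := by ring
      rw [this, zero_add, smul_eq_mul]
      simp only [hΦ]
      field_simp
    rw [e2]
    have : V c ≤ Real.circleAverage V c ρ := hs
    have hπ := Real.pi_pos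
    have hρ0 := hρ.1
    nlinarith [mul_le_mul_of_nonneg_left this (show 0 ≤ 2 * Real.pi * ρ by positivity)]
  have hI1 : IntegrableOn (fun ρ : ℝ => 2 * Real.pi * V c * ρ) (Ioo 0 t) :=
    ((continuous_const.mul continuous_id).continuousOn.integrableOn_compact
      (isCompact_Icc (a := 0) (b := t))).mono_set Ioo_subset_Icc_self
  have hI2 : IntegrableOn (fun ρ : ℝ => ∫ φ in Ioo (-Real.pi) Real.pi, ρ * V (Φ (ρ, φ)))
      (Ioo 0 t) := by
    have := hint
    rw [IntegrableOn, ← Measure.prod_restrict] at this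
    exact this.integral_prod_left
  refine le_trans (le_of_eq ?_) (setIntegral_mono_on hI1 hI2 measurableSet_Ioo hinner)
  rw [← integral_Ioc_eq_integral_Ioo, ← intervalIntegral.integral_of_le ht.le,
    intervalIntegral.integral_const_mul, integral_id]
  ring

lemma norm_le_exp_posLog (x : ℂ) : ‖x‖ ≤ Real.exp (Real.posLog ‖x‖) := by
  rcases eq_or_ne x 0 with rfl | hx
  · simp
  · have h1 : 0 < ‖x‖ := norm_pos_iff.2 hx
    calc ‖x‖ = Real.exp (Real.log ‖x‖) := (Real.exp_log h1).symm
      _ ≤ _ := Real.exp_le_exp.2 (by rw [Real.posLog_apply]; exact le_max_right _ _)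

lemma pointwise {w : ℂ → ℂ} {ξ : ℂ} {s : ℝ} (hs : 0 < s) (hs4 : s ≤ 1 / 4)
    (hw : AnalyticOnNhd ℂ w (closedBall ξ (3 / 4 * s)))
    (hA : ∀ z ∈ closedBall ξ (3 / 4 * s), ‖w z‖ ≤ 1 / (4 * s)) :
    Real.posLog ‖deriv w ξ + w ξ ^ 2‖ ≤ Real.log (17 / (4 * s)) + Real.log (1 / (4 * s)) -
      4 / (Real.pi * s ^ 2) * ∫ z in ball ξ (s / 4),
        (Real.log (1 / (4 * s)) - Real.posLog ‖w z‖) := by
  have hπ := Real.pi_pos
  set LA := Real.log (1 / (4 * s)) with hLA
  have hone : 1 ≤ 1 / (4 * s) := by rw [one_le_div (by linarith)]; linarith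
  set V : ℂ → ℝ := fun z => Real.posLog ‖w z‖ with hV
  have hVc : ContinuousOn V (closedBall ξ (3 / 4 * s)) :=
    Real.continuous_posLog.comp_continuousOn hw.continuousOn.norm
  have hVA : ∀ z ∈ closedBall ξ (3 / 4 * s), V z ≤ LA := by
    intro z hz
    have h1 := Real.posLog_le_posLog (norm_nonneg _) (hA z hz)
    rwa [Real.posLog_eq_log (x := 1 / (4 * s)) (by rw [abs_of_pos (by positivity)]; exact hone)]
      at h1
  have hV0 : ∀ z, 0 ≤ V z := fun z => Real.posLog_nonneg
  set D := ∫ z in ball ξ (s / 4), (LA - V z) with hD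
  set Λ := LA - 4 / (Real.pi * s ^ 2) * D with hΛ
  have hmain : ∀ ζ ∈ closedBall ξ (s / 4), V ζ ≤ Λ := by
    intro ζ hζ
    rw [mem_closedBall] at hζ
    have hsub : closedBall ζ (s / 2) ⊆ closedBall ξ (3 / 4 * s) :=
      closedBall_subset_closedBall' (by linarith)
    have hsub2 : ball ξ (s / 4) ⊆ ball ζ (s / 2) :=
      ball_subset_ball' (by rw [dist_comm]; linarith)
    have h1 := area_submean (w := w) (c := ζ) (t := s / 2) (by linarith) (hw.mono hsub)
    have hIV : IntegrableOn V (ball ζ (s / 2)) :=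
      ((hVc.mono hsub).integrableOn_compact (isCompact_closedBall _ _)).mono_set
        ball_subset_closedBall
    have hIc : IntegrableOn (fun _ : ℂ => LA) (ball ζ (s / 2)) :=
      (continuousOn_const.integrableOn_compact (isCompact_closedBall ζ (s / 2))).mono_set
        ball_subset_closedBall
    have hIs : IntegrableOn (fun z => LA - V z) (ball ζ (s / 2)) := hIc.sub hIV
    have h2 : D ≤ ∫ z in ball ζ (s / 2), (LA - V z) := by
      refine setIntegral_mono_set hIs ?_ (Filter.Eventually.of_forall hsub2)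
      rw [Filter.EventuallyLE, ae_restrict_iff' measurableSet_ball]
      exact Eventually.of_forall fun z hz => sub_nonneg.2
        (hVA z (hsub (ball_subset_closedBall hz)))
    have h3 : ∫ z in ball ζ (s / 2), (LA - V z) = Real.pi * (s / 2) ^ 2 * LA -
        ∫ z in ball ζ (s / 2), V z := by
      rw [integral_sub hIc hIV, setIntegral_const]
      congr 1
      rw [Measure.real, Complex.volume_ball, smul_eq_mul]
      congr 1
      simp [ENNReal.toReal_ofReal (show 0 ≤ s / 2 by linarith)]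
      ring
    have h4 : Real.pi * (s / 2) ^ 2 * V ζ ≤ Real.pi * (s / 2) ^ 2 * LA - D := by
      have : Real.pi * (s / 2) ^ 2 * V ζ ≤ ∫ z in ball ζ (s / 2), V z := h1
      linarith
    have h5 : V ζ ≤ (Real.pi * (s / 2) ^ 2 * LA - D) / (Real.pi * (s / 2) ^ 2) := by
      rw [le_div_iff₀ (by positivity)]; linarith
    refine h5.trans (le_of_eq ?_)
    rw [hΛ]; field_simp
    ring
  have hΛ0 : 0 ≤ Λ := (hV0 ξ).trans (hmain ξ (mem_closedBall_self (by linarith)))
  have hexp : ∀ ζ ∈ closedBall ξ (s / 4), ‖w ζ‖ ≤ Real.exp Λ := fun ζ hζ =>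
    (norm_le_exp_posLog _).trans (Real.exp_le_exp.2 (hmain ζ hζ))
  have hder : ‖deriv w ξ‖ ≤ Real.exp Λ / (s / 4) := by
    refine Complex.norm_deriv_le_of_forall_mem_sphere_norm_le (by linarith) ?_
      (fun z hz => hexp z (sphere_subset_closedBall hz))
    refine (DifferentiableOn.diffContOnCl ?_)
    rw [closure_ball ξ (by linarith)]
    exact (hw.mono (closedBall_subset_closedBall (by linarith))).differentiableOn
  have hsq : ‖w ξ‖ ^ 2 ≤ 1 / (4 * s) * Real.exp Λ := by
    have h1 := hexp ξ (mem_closedBall_self (by linarith))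
    have h2 := hA ξ (mem_closedBall_self (by linarith))
    rw [pow_two]
    gcongr
  have htot : ‖deriv w ξ + w ξ ^ 2‖ ≤ 17 / (4 * s) * Real.exp Λ := by
    refine (norm_add_le _ _).trans ?_
    rw [norm_pow]
    refine (add_le_add hder hsq).trans (le_of_eq ?_)
    field_simp
    ring
  have h17 : (1 : ℝ) ≤ 17 / (4 * s) := by rw [one_le_div (by linarith)]; linarith
  have hfin : Real.posLog ‖deriv w ξ + w ξ ^ 2‖ ≤ Real.log (17 / (4 * s)) + Λ := by
    rw [Real.posLog_apply]
    refine max_le (add_nonneg (Real.log_nonneg h17) hΛ0) ?_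
    rcases eq_or_ne (deriv w ξ + w ξ ^ 2) 0 with h0 | h0
    · rw [h0]; simp only [norm_zero, Real.log_zero]
      exact add_nonneg (Real.log_nonneg h17) hΛ0
    · have h1 := Real.log_le_log (norm_pos_iff.2 h0) htot
      rwa [Real.log_mul (by positivity) (Real.exp_ne_zero _), Real.log_exp] at h1
  rw [hΛ] at hfin
  linarith

lemma rot_circle (V : ℂ → ℝ) (η : ℂ) :
    (∫ θ in (0 : ℝ)..2 * Real.pi, V (Complex.exp (θ * Complex.I) * η)) =
      2 * Real.pi * Real.circleAverage V 0 ‖η‖ := by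
  rw [Real.circleAverage_eq_integral_add (Complex.arg η), smul_eq_mul, ← mul_assoc,
    mul_inv_cancel₀ (by positivity), one_mul]
  congr 1
  ext θ
  congr 1
  rw [circleMap, zero_add]
  conv_lhs => rw [← Complex.norm_mul_exp_arg_mul_I η]
  push_cast
  rw [add_mul, Complex.exp_add]
  ring

lemma ball_rot (V : ℂ → ℝ) (ρ σ θ : ℝ) :
    (∫ z in ball (circleMap 0 ρ θ) σ, V z) =
      ∫ ζ in ball (0 : ℂ) σ, V (Complex.exp (θ * Complex.I) * (ρ + ζ)) := by
  have hm : MeasurePreserving (fun ζ : ℂ => Complex.exp (θ * Complex.I) * (ρ + ζ)) volume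
      volume := by
    have h1 := (rotation (Circle.exp θ)).measurePreserving
    have h2 := h1.comp (measurePreserving_add_left (volume : Measure ℂ) (ρ : ℂ))
    have h3 : (fun ζ : ℂ => Complex.exp (θ * Complex.I) * (ρ + ζ)) =
        ⇑(rotation (Circle.exp θ)) ∘ fun x => (ρ : ℂ) + x := by
      funext ζ
      simp only [Function.comp_apply, rotation_apply, Circle.coe_exp]
    rw [h3]
    exact h2
  have he : MeasurableEmbedding (fun ζ : ℂ => Complex.exp (θ * Complex.I) * (ρ + ζ)) := by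
    have h1 : MeasurableEmbedding (fun ζ : ℂ => (ρ : ℂ) + ζ) :=
      (Homeomorph.addLeft (ρ : ℂ)).measurableEmbedding
    have h2 : MeasurableEmbedding (fun ζ : ℂ => Complex.exp (θ * Complex.I) * ζ) :=
      (Homeomorph.mulLeft₀ (Complex.exp (θ * Complex.I)) (Complex.exp_ne_zero _)).measurableEmbedding
    exact h2.comp h1
  rw [← hm.setIntegral_preimage_emb he]
  congr 2
  ext ζ
  simp only [mem_preimage, mem_ball, dist_eq_norm, sub_zero, circleMap, zero_add]
  have : Complex.exp (θ * Complex.I) * (ρ + ζ) - ρ * Complex.exp (θ * Complex.I) =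
    Complex.exp (θ * Complex.I) * ζ := by ring
  rw [this, norm_mul, Complex.norm_exp_ofReal_mul_I, one_mul]

lemma rot_avg {V : ℂ → ℝ} {ρ σ μ : ℝ} (hσ : 0 < σ) (hσρ : σ < ρ)
    (hV : ContinuousOn V (closedBall 0 (ρ + σ)))
    (hμ : ∀ r, ρ - σ ≤ r → r ≤ ρ + σ → Real.circleAverage V 0 r ≤ μ) :
    CircleIntegrable (fun ξ => ∫ z in ball ξ σ, V z) 0 ρ ∧
    Real.circleAverage (fun ξ => ∫ z in ball ξ σ, V z) 0 ρ ≤ Real.pi * σ ^ 2 * μ := by
  have hπ := Real.pi_pos
  set Ψ : ℝ × ℂ → ℝ := fun p => V (Complex.exp (p.1 * Complex.I) * (ρ + p.2)) with hΨ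
  have hnorm : ∀ p : ℝ × ℂ, ‖Complex.exp (p.1 * Complex.I) * (ρ + p.2)‖ = ‖(ρ : ℂ) + p.2‖ :=
    fun p => by rw [norm_mul, Complex.norm_exp_ofReal_mul_I, one_mul]
  have hc : ContinuousOn Ψ (Icc 0 (2 * Real.pi) ×ˢ closedBall (0 : ℂ) σ) := by
    refine hV.comp (by fun_prop) ?_
    rintro p ⟨_, hp⟩
    rw [mem_closedBall_zero_iff] at hp ⊢
    rw [hnorm]
    refine (norm_add_le _ _).trans ?_
    rw [Complex.norm_real, Real.norm_of_nonneg (by linarith)]
    linarith
  have hint : Integrable Ψ ((volume.restrict (Ioc 0 (2 * Real.pi))).prod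
      (volume.restrict (ball (0 : ℂ) σ))) := by
    rw [Measure.prod_restrict]
    have := hc.integrableOn_compact (μ := volume) (isCompact_Icc.prod (isCompact_closedBall _ _))
    exact this.mono_set (prod_mono Ioc_subset_Icc_self ball_subset_closedBall)
  have hcm : ∀ θ : ℝ, (fun ξ => ∫ z in ball ξ σ, V z) (circleMap 0 ρ θ) =
      ∫ ζ in ball (0 : ℂ) σ, Ψ (θ, ζ) := fun θ => ball_rot V ρ σ θ
  constructor
  · rw [CircleIntegrable, intervalIntegrable_iff_integrableOn_Ioc_of_le (by positivity)]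
    have := hint.integral_prod_left
    refine this.congr (Eventually.of_forall fun θ => (hcm θ).symm)
  · rw [Real.circleAverage_def, smul_eq_mul]
    simp only [hcm]
    rw [intervalIntegral.integral_of_le (by positivity), integral_integral_swap hint]
    have hle : (∫ ζ in ball (0 : ℂ) σ, ∫ θ in Ioc 0 (2 * Real.pi), Ψ (θ, ζ)) ≤
        ∫ ζ in ball (0 : ℂ) σ, 2 * Real.pi * μ := by
      refine setIntegral_mono_on hint.integral_prod_right ?_ measurableSet_ball ?_
      · exact (continuousOn_const.integrableOn_compact (isCompact_closedBall (0 : ℂ) σ)).mono_set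
          ball_subset_closedBall
      · intro ζ hζ
        rw [← intervalIntegral.integral_of_le (by positivity)]
        have h1 := rot_circle V (ρ + ζ)
        rw [mem_ball_zero_iff] at hζ
        have h2 : ‖(ρ : ℂ) + ζ‖ ≤ ρ + σ := by
          refine (norm_add_le _ _).trans ?_
          rw [Complex.norm_real, Real.norm_of_nonneg (by linarith)]
          linarith
        have h3 : ρ - σ ≤ ‖(ρ : ℂ) + ζ‖ := by
          have := norm_sub_norm_le (ρ : ℂ) (-ζ)
          rw [norm_neg, sub_neg_eq_add, Complex.norm_real, Real.norm_of_nonneg (by linarith)] at this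
          linarith
        calc (∫ θ in (0 : ℝ)..2 * Real.pi, Ψ (θ, ζ)) =
            2 * Real.pi * Real.circleAverage V 0 ‖(ρ : ℂ) + ζ‖ := h1
          _ ≤ 2 * Real.pi * μ := by
            have := hμ _ h3 h2
            gcongr
    have hval : (∫ _ζ in ball (0 : ℂ) σ, 2 * Real.pi * μ) = Real.pi * σ ^ 2 * (2 * Real.pi * μ) := by
      rw [setIntegral_const, Measure.real, Complex.volume_ball, smul_eq_mul]
      congr 1
      simp [ENNReal.toReal_ofReal hσ.le]
      ring
    rw [hval] at hle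
    calc (2 * Real.pi)⁻¹ * _ ≤ (2 * Real.pi)⁻¹ * (Real.pi * σ ^ 2 * (2 * Real.pi * μ)) := by
          gcongr
      _ = _ := by field_simp

lemma main_ineq {w G : ℂ → ℂ} (hw : DifferentiableOn ℂ w (ball 0 1))
    (hG : ∀ z, ‖z‖ < 1 → deriv w z + w z ^ 2 = G z) (hGc : ContinuousOn G (ball 0 1))
    (hwb : ∀ z, ‖z‖ < 1 → ‖w z‖ ≤ 1 / 4 / (1 - ‖z‖)) {ρ s μ : ℝ} (hs : 0 < s) (hs4 : s ≤ 1 / 4)
    (hρ : ρ = 1 - 2 * s)
    (hμ : ∀ r, ρ - s / 4 ≤ r → r ≤ ρ + s / 4 →
      Real.circleAverage (fun z => Real.posLog ‖w z‖) 0 r ≤ μ) :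
    4 * Real.circleAverage (fun z => Real.posLog ‖G z‖) 0 ρ ≤
      4 * Real.log (17 / (4 * s)) + 3 * Real.log (1 / (4 * s)) + μ := by
  have hπ := Real.pi_pos
  set LA := Real.log (1 / (4 * s)) with hLA
  set V : ℂ → ℝ := fun z => Real.posLog ‖w z‖ with hV
  have hwa : AnalyticOnNhd ℂ w (ball 0 1) := hw.analyticOnNhd isOpen_ball
  have hVc : ContinuousOn V (ball 0 1) :=
    Real.continuous_posLog.comp_continuousOn hw.continuousOn.norm
  have hρ0 : 0 < ρ := by linarith
  obtain ⟨hI, hle⟩ := rot_avg (V := V) (ρ := ρ) (σ := s / 4) (μ := μ) (by linarith) (by linarith)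
    (hVc.mono (closedBall_subset_ball (by linarith))) hμ
  set Q : ℂ → ℝ := fun ξ => ∫ z in ball ξ (s / 4), V z with hQ
  have hpt : ∀ ξ ∈ sphere (0 : ℂ) |ρ|, Real.posLog ‖G ξ‖ ≤
      (Real.log (17 / (4 * s)) + 3 / 4 * LA) + 4 / (Real.pi * s ^ 2) * Q ξ := by
    intro ξ hξ
    rw [abs_of_pos hρ0, mem_sphere_zero_iff_norm] at hξ
    have hsub : closedBall ξ (3 / 4 * s) ⊆ ball 0 1 := by
      intro z hz
      rw [mem_closedBall, dist_eq_norm] at hz
      rw [mem_ball_zero_iff]
      have := norm_sub_norm_le z ξ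
      linarith
    have h1 := pointwise hs hs4 (hwa.mono hsub) (fun z hz => by
      have h2 := hsub hz
      rw [mem_ball_zero_iff] at h2
      refine (hwb z h2).trans ?_
      rw [mem_closedBall, dist_eq_norm] at hz
      have h3 := norm_sub_norm_le z ξ
      rw [div_div]
      apply one_div_le_one_div_of_le (by linarith)
      linarith)
    rw [hG ξ (by linarith)] at h1
    have hIV : IntegrableOn V (ball ξ (s / 4)) :=
      ((hVc.mono ((closedBall_subset_closedBall (by linarith)).trans hsub)).integrableOn_compact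
        (isCompact_closedBall ξ (s / 4))).mono_set ball_subset_closedBall
    have hIc : IntegrableOn (fun _ : ℂ => LA) (ball ξ (s / 4)) :=
      (continuousOn_const.integrableOn_compact (isCompact_closedBall ξ (s / 4))).mono_set
        ball_subset_closedBall
    have h3 : ∫ z in ball ξ (s / 4), (LA - V z) = Real.pi * (s / 4) ^ 2 * LA - Q ξ := by
      rw [integral_sub hIc hIV, setIntegral_const]
      congr 1
      rw [Measure.real, Complex.volume_ball, smul_eq_mul]
      congr 1
      simp [ENNReal.toReal_ofReal (show 0 ≤ s / 4 by linarith)]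
      ring
    refine h1.trans (le_of_eq ?_)
    have h4 : ∫ z in ball ξ (s / 4), (Real.log (1 / (4 * s)) - Real.posLog ‖w z‖) =
      Real.pi * (s / 4) ^ 2 * LA - Q ξ := h3
    rw [h4]
    field_simp
    ring
  have hGI : CircleIntegrable (fun z => Real.posLog ‖G z‖) 0 ρ := by
    apply ContinuousOn.circleIntegrable hρ0.le
    refine Real.continuous_posLog.comp_continuousOn (hGc.mono ?_).norm
    exact sphere_subset_closedBall.trans (closedBall_subset_ball (by linarith))
  have hRI : CircleIntegrable (fun ξ => (Real.log (17 / (4 * s)) + 3 / 4 * LA) +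
      4 / (Real.pi * s ^ 2) * Q ξ) 0 ρ := by
    have h1 : CircleIntegrable (fun ξ => 4 / (Real.pi * s ^ 2) * Q ξ) 0 ρ := by
      simpa [smul_eq_mul] using hI.const_fun_smul (a := 4 / (Real.pi * s ^ 2))
    exact (circleIntegrable_const _ _ _).add h1
  have h5 := Real.circleAverage_mono hGI hRI hpt
  have h6 : Real.circleAverage (fun ξ => (Real.log (17 / (4 * s)) + 3 / 4 * LA) +
      4 / (Real.pi * s ^ 2) * Q ξ) 0 ρ = (Real.log (17 / (4 * s)) + 3 / 4 * LA) +
      4 / (Real.pi * s ^ 2) * Real.circleAverage Q 0 ρ := by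
    have h1 : CircleIntegrable (fun ξ => 4 / (Real.pi * s ^ 2) * Q ξ) 0 ρ := by
      simpa [smul_eq_mul] using hI.const_fun_smul (a := 4 / (Real.pi * s ^ 2))
    rw [Real.circleAverage_fun_add (circleIntegrable_const _ _ _) h1, Real.circleAverage_const]
    congr 1
    exact Real.circleAverage_fun_smul (a := 4 / (Real.pi * s ^ 2)) (f := Q)
  rw [h6] at h5
  have h7 : 4 / (Real.pi * s ^ 2) * Real.circleAverage Q 0 ρ ≤ μ / 4 := by
    calc 4 / (Real.pi * s ^ 2) * Real.circleAverage Q 0 ρ ≤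
        4 / (Real.pi * s ^ 2) * (Real.pi * (s / 4) ^ 2 * μ) := by gcongr
      _ = μ / 4 := by field_simp
  linarith

/-- The building block `-2 z / (1 - z)`, with real part at most one. -/
noncomputable def phi (z : ℂ) : ℂ := -(2 * z) / (1 - z)

lemma one_sub_ne {z : ℂ} (hz : ‖z‖ < 1) : (1 : ℂ) - z ≠ 0 := by
  intro h
  have : z = 1 := by linear_combination -h
  rw [this] at hz; simp at hz

lemma phi_re (z : ℂ) (hz : ‖z‖ < 1) : (phi z).re = 1 - (1 - ‖z‖ ^ 2) / ‖1 - z‖ ^ 2 := by
  have h1 := one_sub_ne hz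
  have h2 : 0 < ‖1 - z‖ ^ 2 := by positivity
  have h3 : phi z = 1 - (1 + z) / (1 - z) := by rw [phi]; field_simp; ring
  rw [h3, Complex.sub_re, Complex.one_re, Complex.div_re]
  congr 1
  rw [← Complex.normSq_eq_norm_sq, ← Complex.normSq_eq_norm_sq]
  rw [← Complex.normSq_eq_norm_sq] at h2
  simp only [Complex.normSq_apply, Complex.add_re, Complex.sub_re, Complex.one_re, Complex.add_im,
    Complex.sub_im, Complex.one_im] at h2 ⊢
  field_simp
  ring

lemma phi_re_le_one (z : ℂ) (hz : ‖z‖ < 1) : (phi z).re ≤ 1 := by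
  rw [phi_re z hz]
  have : 0 ≤ (1 - ‖z‖ ^ 2) / ‖1 - z‖ ^ 2 := by
    apply div_nonneg _ (by positivity)
    nlinarith [norm_nonneg z]
  linarith

lemma phi_re_le (z : ℂ) (hz : ‖z‖ < 1) : (phi z).re ≤ 2 * ‖z‖ := by
  rw [phi_re z hz]
  have h0 := norm_nonneg z
  have h1 := one_sub_ne hz
  have h2 : 0 < ‖1 - z‖ ^ 2 := by positivity
  have h3 : ‖1 - z‖ ≤ 1 + ‖z‖ := (norm_sub_le _ _).trans (by simp)
  have h4 : ‖1 - z‖ ^ 2 ≤ (1 + ‖z‖) ^ 2 := by gcongr
  have h5 : (1 - ‖z‖ ^ 2) / (1 + ‖z‖) ^ 2 ≤ (1 - ‖z‖ ^ 2) / ‖1 - z‖ ^ 2 := by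
    apply div_le_div_of_nonneg_left _ h2 h4
    nlinarith
  have h6 : 1 - 2 * ‖z‖ ≤ (1 - ‖z‖ ^ 2) / (1 + ‖z‖) ^ 2 := by
    rw [le_div_iff₀ (by positivity)]
    nlinarith [mul_nonneg h0 h0, mul_nonneg (mul_nonneg h0 h0) h0]
  linarith

lemma phi_norm_le (z : ℂ) (hz : ‖z‖ < 1) : ‖phi z‖ ≤ 2 * ‖z‖ / (1 - ‖z‖) := by
  have h1 : 1 - ‖z‖ ≤ ‖1 - z‖ := by
    have := norm_sub_norm_le (1 : ℂ) z
    simpa using this
  rw [phi, norm_div, norm_neg, norm_mul]
  have h2 : ‖(2 : ℂ)‖ = 2 := by simp
  rw [h2]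
  exact div_le_div_of_nonneg_left (by positivity) (by linarith) h1

lemma phi_differentiable : DifferentiableOn ℂ phi (ball 0 1) := by
  intro z hz
  rw [mem_ball_zero_iff] at hz
  have h1 := one_sub_ne hz
  unfold phi
  exact (((differentiableAt_id.const_mul 2).neg).div (differentiableAt_id.const_sub 1)
    h1).differentiableWithinAt

/-- growth step -/
lemma growth {g : ℂ → ℂ} {M K K' δ : ℝ} (hδ : 0 < δ) (hδ1 : δ < 1) (hK : 0 < K) (hKK : K < K')
    (hM : ∀ z, ‖z‖ < 1 → (g z).re ≤ M)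
    (hg : ∀ z, ‖z‖ < 1 → Real.exp (g z).re ≤ K / (1 - ‖z‖) ^ 2) :
    ∀ᶠ m : ℕ in atTop, ∀ z, ‖z‖ < 1 →
      Real.exp ((g z).re + (2 - 2 * δ) * Real.log m * (phi (z ^ m)).re) ≤
        K' / (1 - ‖z‖) ^ 2 := by
  set lam := Real.log (K' / K) with hlam
  have hl : 0 < lam := Real.log_pos (by rw [one_lt_div hK]; exact hKK)
  have ht : Tendsto (fun x : ℝ => Real.exp M * (16 / lam ^ 2) * (x ^ (2 : ℝ) *
      Real.exp (-(2 * δ) * x))) atTop (𝓝 0) := by
    simpa using (tendsto_rpow_mul_exp_neg_mul_atTop_nhds_zero 2 (2 * δ) (by linarith)).const_mul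
      (Real.exp M * (16 / lam ^ 2))
  have ht2 := (ht.comp Real.tendsto_log_atTop).comp (tendsto_natCast_atTop_atTop (R := ℝ))
  have hK' : 0 < K' := hK.trans hKK
  filter_upwards [ht2.eventually (ge_mem_nhds hK'), eventually_ge_atTop 3] with m hm hm3 z hz
  simp only [Function.comp_apply] at hm
  set X := Real.log (m : ℝ) with hX
  have hm0 : (0 : ℝ) < m := by positivity
  have hX0 : 0 < X := Real.log_pos (by
    have : (3 : ℝ) ≤ m := by exact_mod_cast hm3
    linarith)
  set a := (2 - 2 * δ) * X with ha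
  have ha0 : 0 < a := mul_pos (by linarith) hX0
  have ha2 : a ≤ 2 * X := by nlinarith
  have hzm : ‖z ^ m‖ < 1 := by
    rw [norm_pow]; exact pow_lt_one₀ (norm_nonneg _) hz (by lia)
  have hp : 0 < 1 - ‖z‖ := by linarith
  by_cases hcase : a * (2 * ‖z ^ m‖) ≤ lam
  · have h1 : a * (phi (z ^ m)).re ≤ lam :=
      (mul_le_mul_of_nonneg_left (phi_re_le _ hzm) ha0.le).trans hcase
    calc Real.exp ((g z).re + a * (phi (z ^ m)).re) ≤ Real.exp ((g z).re + lam) := by
          apply Real.exp_le_exp.2; linarith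
      _ = Real.exp (g z).re * (K' / K) := by
          rw [Real.exp_add, hlam, Real.exp_log (by positivity)]
      _ ≤ K / (1 - ‖z‖) ^ 2 * (K' / K) := by gcongr; exact hg z hz
      _ = K' / (1 - ‖z‖) ^ 2 := by field_simp
  · push Not at hcase
    have hxm : 0 < ‖z ^ m‖ := by
      rcases (norm_nonneg (z ^ m)).eq_or_lt with h | h
      · rw [← h] at hcase; simp at hcase; linarith
      · exact h
    have h1 : (m : ℝ) * (1 - ‖z‖) ≤ 1 / ‖z ^ m‖ := by
      have h2 : ‖z‖ ≤ Real.exp (-(1 - ‖z‖)) := by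
        have := Real.add_one_le_exp (-(1 - ‖z‖)); linarith
      have h3 : ‖z ^ m‖ ≤ Real.exp (-(m * (1 - ‖z‖))) := by
        rw [norm_pow]
        calc ‖z‖ ^ m ≤ Real.exp (-(1 - ‖z‖)) ^ m := by gcongr
          _ = _ := by rw [← Real.exp_nat_mul]; congr 1; ring
      rw [le_div_iff₀ hxm]
      have h4 : (m : ℝ) * (1 - ‖z‖) ≤ Real.exp (m * (1 - ‖z‖)) := by
        have := Real.add_one_le_exp ((m : ℝ) * (1 - ‖z‖)); linarith
      calc (m : ℝ) * (1 - ‖z‖) * ‖z ^ m‖ ≤
          Real.exp (m * (1 - ‖z‖)) * Real.exp (-(m * (1 - ‖z‖))) := by gcongr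
        _ = 1 := by rw [← Real.exp_add]; simp
    have h5 : 1 / ‖z ^ m‖ ≤ 4 * X / lam := by
      rw [div_le_div_iff₀ hxm hl]
      nlinarith
    have h6 : (m : ℝ) * (1 - ‖z‖) ≤ 4 * X / lam := h1.trans h5
    rw [le_div_iff₀ (by positivity)]
    have h7 : Real.exp ((g z).re + a * (phi (z ^ m)).re) ≤ Real.exp M * Real.exp a := by
      rw [← Real.exp_add]
      apply Real.exp_le_exp.2
      have := phi_re_le_one _ hzm
      have := hM z hz
      nlinarith
    have h8 : (1 - ‖z‖) ≤ 4 * X / lam * Real.exp (-X) := by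
      rw [Real.exp_neg, hX, Real.exp_log hm0, ← div_eq_mul_inv, le_div_iff₀ hm0]
      rw [hX] at h6
      linarith
    calc Real.exp ((g z).re + a * (phi (z ^ m)).re) * (1 - ‖z‖) ^ 2
        ≤ (Real.exp M * Real.exp a) * (4 * X / lam * Real.exp (-X)) ^ 2 := by gcongr
      _ = Real.exp M * (16 / lam ^ 2) * (X ^ (2 : ℝ) * Real.exp (-(2 * δ) * X)) := by
          rw [Real.rpow_two, mul_pow, ← Real.exp_nat_mul]
          have : Real.exp (-(2 * δ) * X) = Real.exp a * Real.exp (((2 : ℕ) : ℝ) * -X) := by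
            rw [← Real.exp_add]; congr 1; rw [ha]; push_cast; ring
          rw [this]
          ring
      _ ≤ K' := hm

lemma small {R δ η : ℝ} (hδ : 0 < δ) (hδ1 : δ < 1) (hR : 0 < R) (hR1 : R < 1) (hη : 0 < η) :
    ∀ᶠ m : ℕ in atTop, ∀ z : ℂ, ‖z‖ ≤ R →
      ‖(((2 - 2 * δ) * Real.log m : ℝ) : ℂ) * phi (z ^ m)‖ ≤ η := by
  have h1 : Tendsto (fun m : ℕ => 8 * ((m : ℝ) * R ^ m)) atTop (𝓝 0) := by
    simpa using (tendsto_self_mul_const_pow_of_lt_one hR.le hR1).const_mul 8
  have h2 : Tendsto (fun m : ℕ => R ^ m) atTop (𝓝 0) :=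
    tendsto_pow_atTop_nhds_zero_of_lt_one hR.le hR1
  filter_upwards [h1.eventually (ge_mem_nhds hη), h2.eventually (ge_mem_nhds
    (show (0 : ℝ) < 1 / 2 by norm_num)), eventually_ge_atTop 1] with m h3 h4 hm1 z hz
  have hm0 : (1 : ℝ) ≤ m := by exact_mod_cast hm1
  have h5 : ‖z ^ m‖ ≤ R ^ m := by rw [norm_pow]; gcongr
  have h6 := phi_norm_le (z ^ m) (by linarith)
  have h7 : 2 * ‖z ^ m‖ / (1 - ‖z ^ m‖) ≤ 4 * R ^ m := by
    rw [div_le_iff₀ (by linarith)]
    nlinarith [norm_nonneg (z ^ m)]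
  have h8 : Real.log m ≤ m := (Real.log_le_sub_one_of_pos (by linarith)).trans (by linarith)
  have h9 : 0 ≤ Real.log m := Real.log_nonneg hm0
  rw [norm_mul, Complex.norm_real, Real.norm_of_nonneg (mul_nonneg (by linarith) h9)]
  have hR0 : 0 ≤ R ^ m := by positivity
  calc (2 - 2 * δ) * Real.log m * ‖phi (z ^ m)‖ ≤ (2 * m) * (4 * R ^ m) := by
        apply mul_le_mul _ (h6.trans h7) (norm_nonneg _) (by positivity)
        nlinarith
    _ = 8 * ((m : ℝ) * R ^ m) := by ring
    _ ≤ η := h3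

lemma circleAverage_pow (h : ℂ → ℝ) {m : ℕ} (hm : 1 ≤ m) (ρ : ℝ) 
    (hi : CircleIntegrable h 0 (ρ ^ m)) :
    Real.circleAverage (fun z => h (z ^ m)) 0 ρ = Real.circleAverage h 0 (ρ ^ m) := by
  have hm0 : (m : ℝ) ≠ 0 := by positivity
  rw [Real.circleAverage_def, Real.circleAverage_def]
  congr 1
  set f : ℝ → ℝ := fun x => h (circleMap 0 (ρ ^ m) x) with hf
  have hp : Function.Periodic f (2 * Real.pi) := fun x => by
    simp only [hf]; rw [periodic_circleMap]
  have h1 : ∀ θ : ℝ, h (circleMap 0 ρ θ ^ m) = f (m * θ) := by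
    intro θ
    simp only [hf, circleMap, zero_add, mul_pow, ← Complex.exp_nat_mul]
    push_cast
    congr 3
    ring
  simp only [h1]
  rw [intervalIntegral.integral_comp_mul_left f hm0, mul_zero]
  have h2 := hp.intervalIntegral_add_zsmul_eq (m : ℤ) 0
  have h3 : (m : ℝ) * (2 * Real.pi) = 0 + (m : ℤ) • (2 * Real.pi) := by simp
  rw [h3, h2 (fun a b => ?_)]
  · simp only [zero_add, smul_eq_mul, zsmul_eq_mul, Int.cast_natCast]
    rw [← mul_assoc, inv_mul_cancel₀ hm0, one_mul]
  · exact hp.intervalIntegrable₀ (by positivity) (by simpa [CircleIntegrable] using hi) a b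

lemma phi_cont_circle {σ : ℝ} (h0 : 0 < σ) (h1 : σ < 1) :
    Continuous fun θ : ℝ => (phi (circleMap 0 σ θ)).re := by
  have h : ∀ θ : ℝ, circleMap 0 σ θ ∈ ball (0 : ℂ) 1 := fun θ => by
    rw [mem_ball_zero_iff, norm_circleMap_zero, abs_of_pos h0]; exact h1
  exact Complex.continuous_re.comp
    (phi_differentiable.continuousOn.comp_continuous (continuous_circleMap 0 σ) h)

lemma kappa {δ : ℝ} (hδ : 0 < δ) : ∃ σ : ℝ, 0 < σ ∧ σ < 1 ∧
    1 - δ ≤ Real.circleAverage (fun z => max 0 (phi z).re) 0 σ := by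
  have hπ := Real.pi_pos
  have hlt : ∀ᶠ σ : ℝ in 𝓝[<] 1, 0 < σ ∧ σ < 1 :=
    Ioo_mem_nhdsLT (by norm_num : (0 : ℝ) < 1)
  have ht : Tendsto (fun σ : ℝ => ∫ θ in (0 : ℝ)..2 * Real.pi,
      max 0 (phi (circleMap 0 σ θ)).re) (𝓝[<] 1)
      (𝓝 (∫ _θ in (0 : ℝ)..2 * Real.pi, (1 : ℝ))) := by
    refine intervalIntegral.tendsto_integral_filter_of_dominated_convergence (fun _ => 1) ?_ ?_
      (by simp) ?_
    · filter_upwards [hlt] with σ hσ
      exact (continuous_const.max (phi_cont_circle hσ.1 hσ.2)).aestronglyMeasurable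
    · filter_upwards [hlt] with σ hσ
      refine Eventually.of_forall fun θ _ => ?_
      rw [Real.norm_of_nonneg (le_max_left _ _)]
      refine max_le zero_le_one (phi_re_le_one _ ?_)
      rw [norm_circleMap_zero, abs_of_pos hσ.1]; exact hσ.2
    · have hne : ∀ᵐ θ : ℝ, θ ≠ 2 * Real.pi := Measure.ae_ne volume _
      filter_upwards [hne] with θ hθ hθI
      rw [uIoc_of_le (by positivity)] at hθI
      have he : (1 : ℂ) - circleMap 0 1 θ ≠ 0 := by
        intro h
        have h1 : Complex.exp (θ * Complex.I) = 1 := by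
          simp only [circleMap, Complex.ofReal_one, one_mul, zero_add] at h
          linear_combination -h
        rw [Complex.exp_eq_one_iff] at h1
        obtain ⟨n, hn⟩ := h1
        have h2 : (θ : ℂ) = n * (2 * Real.pi) := by
          have : (θ : ℂ) * Complex.I = (n * (2 * Real.pi)) * Complex.I := by rw [hn]; ring
          exact mul_right_cancel₀ Complex.I_ne_zero this
        have h3 : θ = n * (2 * Real.pi) := by exact_mod_cast h2
        have h4 : 0 < (n : ℝ) := by
          by_contra hc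
          push Not at hc
          nlinarith [hθI.1]
        have h5 : (n : ℝ) ≤ 1 := by
          by_contra hc
          push Not at hc
          nlinarith [hθI.2]
        have h6 : 0 < n := by exact_mod_cast h4
        have h7 : n ≤ 1 := by exact_mod_cast h5
        have h8 : n = 1 := by lia
        rw [h8] at h3
        apply hθ
        rw [h3]; push_cast; ring
      have h1 : Tendsto (fun σ : ℝ => 1 - (1 - ‖circleMap 0 σ θ‖ ^ 2) /
          ‖1 - circleMap 0 σ θ‖ ^ 2) (𝓝[<] 1) (𝓝 1) := by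
        have hc : Continuous fun σ : ℝ => circleMap 0 σ θ := by
          simp only [circleMap]; fun_prop
        have hca : ContinuousAt (fun σ : ℝ => 1 - (1 - ‖circleMap 0 σ θ‖ ^ 2) /
            ‖1 - circleMap 0 σ θ‖ ^ 2) 1 := by
          refine continuousAt_const.sub (ContinuousAt.div ?_ ?_ ?_)
          · exact (continuous_const.sub ((hc.norm).pow 2)).continuousAt
          · exact ((continuous_const.sub hc).norm.pow 2).continuousAt
          · exact pow_ne_zero _ (norm_ne_zero_iff.2 he)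
        have h9 : Tendsto (fun σ : ℝ => 1 - (1 - ‖circleMap 0 σ θ‖ ^ 2) /
            ‖1 - circleMap 0 σ θ‖ ^ 2) (𝓝[<] 1) (𝓝 (1 - (1 - ‖circleMap 0 1 θ‖ ^ 2) /
            ‖1 - circleMap 0 1 θ‖ ^ 2)) := hca.tendsto.mono_left nhdsWithin_le_nhds
        have hv : (1 - (1 - ‖circleMap 0 1 θ‖ ^ 2) / ‖1 - circleMap 0 1 θ‖ ^ 2) = (1 : ℝ) := by
          simp
        rwa [hv] at h9
      have h2 : Tendsto (fun σ : ℝ => max 0 (1 - (1 - ‖circleMap 0 σ θ‖ ^ 2) /
          ‖1 - circleMap 0 σ θ‖ ^ 2)) (𝓝[<] 1) (𝓝 (max 0 1)) := tendsto_const_nhds.max h1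
      have h3 : max (0 : ℝ) 1 = 1 := by norm_num
      rw [h3] at h2
      refine h2.congr' ?_
      filter_upwards [hlt] with σ hσ
      rw [phi_re _ (by rw [norm_circleMap_zero, abs_of_pos hσ.1]; exact hσ.2)]
  have hval : (∫ _θ in (0 : ℝ)..2 * Real.pi, (1 : ℝ)) = 2 * Real.pi := by simp
  rw [hval] at ht
  have ht2 : Tendsto (fun σ : ℝ => Real.circleAverage (fun z => max 0 (phi z).re) 0 σ) (𝓝[<] 1)
      (𝓝 1) := by
    have := ht.const_mul (2 * Real.pi)⁻¹
    rw [inv_mul_cancel₀ (by positivity)] at this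
    simpa [Real.circleAverage_def, smul_eq_mul] using this
  obtain ⟨σ, h1, h2⟩ := ((ht2.eventually (le_mem_nhds (show 1 - δ < 1 by linarith))).and hlt).exists
  exact ⟨σ, h2.1, h2.2, h1⟩

noncomputable def blk (δ : ℝ) (m : ℕ) (z : ℂ) : ℂ :=
  (((2 - 2 * δ) * Real.log m : ℝ) : ℂ) * phi (z ^ m)

lemma blk_re (δ : ℝ) (m : ℕ) (z : ℂ) :
    (blk δ m z).re = (2 - 2 * δ) * Real.log m * (phi (z ^ m)).re := by
  rw [blk, Complex.re_ofReal_mul]

lemma pow_mem {z : ℂ} {m : ℕ} (hm : 1 ≤ m) (hz : ‖z‖ < 1) : ‖z ^ m‖ < 1 := by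
  rw [norm_pow]; exact pow_lt_one₀ (norm_nonneg _) hz (by lia)

lemma blk_diff (δ : ℝ) {m : ℕ} (hm : 1 ≤ m) : DifferentiableOn ℂ (blk δ m) (ball 0 1) := by
  refine DifferentiableOn.const_mul ?_ _
  refine phi_differentiable.comp (by fun_prop) fun z hz => ?_
  rw [mem_ball_zero_iff] at hz ⊢
  exact pow_mem hm hz

structure St where
  g : ℂ → ℂ
  M : ℝ
  R : ℝ
  n : ℕ

structure Inv (s : St) : Prop where
  diff : DifferentiableOn ℂ s.g (ball 0 1)
  zero : s.g 0 = 0
  M0 : 0 ≤ s.M
  re_le : ∀ z, ‖z‖ < 1 → (s.g z).re ≤ s.M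
  gr : ∀ z, ‖z‖ < 1 → Real.exp (s.g z).re ≤ (2 - 1 / 2 ^ s.n) / (1 - ‖z‖) ^ 2
  R0 : 0 < s.R
  R1 : s.R < 1
  Rn : 1 - 1 / ((s.n : ℝ) + 1) ≤ s.R

structure Stp (δ σ : ℝ) (s s' : St) (m : ℕ) (ρ : ℝ) : Prop where
  hm : 1 ≤ m
  hg : ∀ z, s'.g z = s.g z + blk δ m z
  hn : s'.n = s.n + 1
  hR : s.R ≤ s'.R
  sm : ∀ z, ‖z‖ ≤ s.R → ‖blk δ m z‖ ≤ 1 / 2 ^ (s.n + 1)
  hM : s.M ≤ δ * Real.log m
  hl : (s.n : ℝ) ≤ Real.log m
  ρ0 : 0 < ρ
  ρpow : ρ ^ m = σ
  ρR : ρ ≤ s'.R

lemma exists_step {δ σ : ℝ} (hδ : 0 < δ) (hδ1 : δ < 1) (hσ : 0 < σ) (hσ1 : σ < 1) (s : St)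
    (hs : Inv s) : ∃ s', Inv s' ∧ ∃ m ρ, Stp δ σ s s' m ρ := by
  have h2n : (1 : ℝ) ≤ 2 ^ s.n := one_le_pow₀ (by norm_num)
  have hKpos : (0 : ℝ) < 2 - 1 / 2 ^ s.n := by
    have : (1 : ℝ) / 2 ^ s.n ≤ 1 := by rw [div_le_one (by positivity)]; exact h2n
    linarith
  have hKK : (2 : ℝ) - 1 / 2 ^ s.n < 2 - 1 / 2 ^ (s.n + 1) := by
    have : (1 : ℝ) / 2 ^ (s.n + 1) < 1 / 2 ^ s.n := by
      apply one_div_lt_one_div_of_lt (by positivity)
      rw [pow_succ]; linarith
    linarith
  have e1 := growth hδ hδ1 hKpos hKK hs.re_le hs.gr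
  have e2 := small (R := s.R) (η := 1 / 2 ^ (s.n + 1)) hδ hδ1 hs.R0 hs.R1 (by positivity)
  have e3 : ∀ᶠ m : ℕ in atTop, max (s.M / δ) s.n ≤ Real.log m :=
    (Real.tendsto_log_atTop.comp (tendsto_natCast_atTop_atTop (R := ℝ))).eventually_ge_atTop _
  obtain ⟨m, h1, h2, h3, hm⟩ := (e1.and (e2.and (e3.and (eventually_ge_atTop 1)))).exists
  have hm0 : (0 : ℝ) < m := by exact_mod_cast hm
  have hlog : 0 ≤ Real.log m := Real.log_nonneg (by exact_mod_cast hm)
  set ρ : ℝ := σ ^ ((m : ℝ)⁻¹) with hρ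
  have hρ0 : 0 < ρ := Real.rpow_pos_of_pos hσ _
  have hρ1 : ρ < 1 := Real.rpow_lt_one hσ.le hσ1 (by positivity)
  refine ⟨⟨fun z => s.g z + blk δ m z, s.M + (2 - 2 * δ) * Real.log m,
    max s.R (max ρ (1 - 1 / ((s.n : ℝ) + 2))), s.n + 1⟩, ?_, m, ρ, ?_⟩
  · constructor
    · exact hs.diff.add (blk_diff δ hm)
    · simp only
      rw [hs.zero, blk, zero_pow (by lia)]
      simp [phi]
    · exact add_nonneg hs.M0 (mul_nonneg (by linarith) hlog)
    · intro z hz
      simp only [Complex.add_re]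
      have h4 := hs.re_le z hz
      have h5 := phi_re_le_one _ (pow_mem hm hz)
      rw [blk_re]
      have h6 : (2 - 2 * δ) * Real.log m * (phi (z ^ m)).re ≤ (2 - 2 * δ) * Real.log m * 1 :=
        mul_le_mul_of_nonneg_left h5 (mul_nonneg (by linarith) hlog)
      linarith
    · intro z hz
      simp only [Complex.add_re]
      rw [blk_re]
      exact h1 z hz
    · exact lt_max_of_lt_left hs.R0
    · refine max_lt hs.R1 (max_lt hρ1 ?_)
      have : (0 : ℝ) < 1 / ((s.n : ℝ) + 2) := by positivity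
      linarith
    · simp only
      refine le_trans (le_of_eq ?_) (le_max_of_le_right (le_max_right _ _))
      push_cast
      ring
  · constructor
    · exact hm
    · intro z; rfl
    · rfl
    · exact le_max_left _ _
    · intro z hz; exact h2 z hz
    · have := (le_max_left _ _).trans h3
      rw [div_le_iff₀ hδ] at this
      linarith
    · exact (le_max_right _ _).trans h3
    · exact hρ0
    · exact Real.rpow_inv_natCast_pow hσ.le (by lia)
    · exact le_max_of_le_right (le_max_left _ _)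

lemma max_ineq {A X c M : ℝ} (hM : X ≤ M) (hM0 : 0 ≤ M) (hc : 0 ≤ c) :
    max 0 A + X - M - c ≤ max 0 (A + X - c) := by
  rcases le_total 0 A with h | h
  · rw [max_eq_right h]
    exact le_max_of_le_right (by linarith)
  · rw [max_eq_left h]
    exact le_max_of_le_left (by linarith)

theorem exists_G {ε : ℝ} (hε : 0 < ε) (hε1 : ε < 1) : ∃ G : ℂ → ℂ,
    DifferentiableOn ℂ G (ball 0 1) ∧ (∀ z, ‖z‖ < 1 → G z ≠ 0) ∧
    (∀ z, ‖z‖ < 1 → ‖G z‖ ≤ 3 / 16 / (1 - ‖z‖) ^ 2) ∧ ∃ C : ℝ, ∀ s0 : ℝ, 0 < s0 →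
      ∃ s, 0 < s ∧ s < s0 ∧ (2 - ε) * Real.log (1 / s) - C ≤
        Real.circleAverage (fun z => Real.posLog ‖G z‖) 0 (1 - 2 * s) := by
  set δ := ε / 5 with hδd
  have hδ : 0 < δ := by positivity
  have hδ1 : δ < 1 := by rw [hδd]; linarith
  obtain ⟨σ, hσ, hσ1, hκ⟩ := kappa hδ
  have hstep : ∀ s : {s : St // Inv s}, ∃ s' : {s : St // Inv s}, ∃ m ρ,
      Stp δ σ s.1 s'.1 m ρ := by
    rintro ⟨s, hs⟩
    obtain ⟨s', h1, h2⟩ := exists_step hδ hδ1 hσ hσ1 s hs
    exact ⟨⟨s', h1⟩, h2⟩
  choose step mm rr hst using hstep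
  have hinit : Inv ⟨fun _ => 0, 0, 1 / 2, 0⟩ := by
    constructor
    · exact differentiableOn_const _
    · rfl
    · exact le_rfl
    · intro z _; simp
    · intro z hz
      have : 0 < 1 - ‖z‖ := by linarith
      simp only [Complex.zero_re, Real.exp_zero, pow_zero]
      rw [le_div_iff₀ (by positivity)]
      nlinarith [norm_nonneg z]
    · norm_num
    · norm_num
    · norm_num
  set S : ℕ → {s : St // Inv s} := fun j => step^[j] ⟨_, hinit⟩ with hS
  have hSs : ∀ j, S (j + 1) = step (S j) := fun j => by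
    simp only [hS, Function.iterate_succ_apply']
  have hT : ∀ j, Stp δ σ (S j).1 (S (j + 1)).1 (mm (S j)) (rr (S j)) := fun j => by
    rw [hSs]; exact hst _
  have hn : ∀ j, (S j).1.n = j := by
    intro j
    induction j with
    | zero => rfl
    | succ j ih => rw [(hT j).hn, ih]
  have hRm : Monotone fun j => (S j).1.R := monotone_nat_of_le_succ fun j => (hT j).hR
  have hdist : ∀ k n z, ‖z‖ ≤ (S k).1.R →
      dist ((S (n + k)).1.g z) ((S (n + 1 + k)).1.g z) ≤ 1 / 2 / 2 ^ n := by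
    intro k n z hz
    have h1 : n + 1 + k = (n + k) + 1 := by ring
    rw [h1, (hT (n + k)).hg z, dist_eq_norm]
    have h2 : (S (n + k)).1.g z - ((S (n + k)).1.g z + blk δ (mm (S (n + k))) z) =
      -blk δ (mm (S (n + k))) z := by ring
    rw [h2, norm_neg]
    have h3 := (hT (n + k)).sm z (hz.trans (hRm (by lia)))
    rw [hn] at h3
    refine h3.trans ?_
    rw [div_div]
    apply one_div_le_one_div_of_le (by positivity)
    rw [← pow_succ']
    exact pow_le_pow_right₀ (by norm_num) (by lia)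
  have hex : ∀ z : ℂ, ‖z‖ < 1 → ∃ k, ‖z‖ < (S k).1.R := by
    intro z hz
    obtain ⟨k, hk⟩ := exists_nat_gt (1 / (1 - ‖z‖))
    refine ⟨k, lt_of_lt_of_le ?_ (S k).2.Rn⟩
    rw [hn]
    have h1 : 0 < 1 - ‖z‖ := by linarith
    have h2 : 1 / ((k : ℝ) + 1) < 1 - ‖z‖ := by
      rw [div_lt_iff₀ (by positivity)]
      rw [div_lt_iff₀ h1] at hk
      nlinarith
    linarith
  have hlim : ∀ z : ℂ, ‖z‖ < 1 → ∃ l, Tendsto (fun j => (S j).1.g z) atTop (𝓝 l) := by
    intro z hz
    obtain ⟨k, hk⟩ := hex z hz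
    obtain ⟨l, hl⟩ := cauchySeq_tendsto_of_complete (cauchySeq_of_le_geometric_two (C := 1)
      (f := fun n => (S (n + k)).1.g z) fun n => hdist k n z hk.le)
    exact ⟨l, (tendsto_add_atTop_iff_nat k).1 hl⟩
  choose! g hg using hlim
  have hgk : ∀ k n z, ‖z‖ ≤ (S k).1.R → dist ((S (n + k)).1.g z) (g z) ≤ 1 / 2 ^ n := by
    intro k n z hz
    exact dist_le_of_le_geometric_two_of_tendsto (C := 1)
      (f := fun n => (S (n + k)).1.g z) (fun n => hdist k n z hz)
      ((tendsto_add_atTop_iff_nat (f := fun j => (S j).1.g z) k).2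
        (hg z (hz.trans_lt (S k).2.R1))) n
  have hunif : TendstoLocallyUniformlyOn (fun j => (S j).1.g) g atTop (ball 0 1) := by
    rw [Metric.tendstoLocallyUniformlyOn_iff]
    intro η hη x hx
    have hx1 : ‖x‖ < 1 := by simpa using hx
    obtain ⟨k, hk⟩ := hex x hx1
    refine ⟨ball 0 (S k).1.R, mem_nhdsWithin_of_mem_nhds (isOpen_ball.mem_nhds (by
      simpa using hk)), ?_⟩
    have hC0 : Tendsto (fun n : ℕ => (1 : ℝ) / 2 ^ n) atTop (𝓝 0) := by
      have := (tendsto_pow_atTop_nhds_zero_of_lt_one (r := (1 / 2 : ℝ)) (by norm_num)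
        (by norm_num))
      simpa [div_eq_mul_inv] using this
    have h1 := (hC0.eventually (gt_mem_nhds hη))
    obtain ⟨N, hN⟩ := eventually_atTop.1 h1
    refine eventually_atTop.2 ⟨N + k, fun i hi y hy => ?_⟩
    obtain ⟨n, rfl⟩ : ∃ n, i = n + k := ⟨i - k, by lia⟩
    have hn' := hN n (by lia)
    have hy1 : ‖y‖ ≤ (S k).1.R := by
      have : ‖y‖ < (S k).1.R := by simpa using hy
      exact this.le
    rw [dist_comm]
    exact (hgk k n y hy1).trans_lt hn'
  have hgd : DifferentiableOn ℂ g (ball 0 1) :=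
    hunif.differentiableOn (Eventually.of_forall fun n => (S n).2.diff) isOpen_ball
  have hg2 : ∀ z, ‖z‖ < 1 → Real.exp (g z).re ≤ 2 / (1 - ‖z‖) ^ 2 := by
    intro z hz
    refine le_of_tendsto ((Real.continuous_exp.comp Complex.continuous_re).continuousAt.tendsto.comp
      (hg z hz)) (Eventually.of_forall fun j => ((S j).2.gr z hz).trans ?_)
    have : (0 : ℝ) < 1 / 2 ^ (S j).1.n := by positivity
    have h1 : 0 < 1 - ‖z‖ := by linarith
    gcongr
    linarith
  set c0 : ℝ := -Real.log (3 / 32) with hc0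
  have hc0p : 0 ≤ c0 := by
    rw [hc0, ← Real.log_inv]; exact Real.log_nonneg (by norm_num)
  have hnorm : ∀ z, ‖(3 / 32 : ℂ) * Complex.exp (g z)‖ = 3 / 32 * Real.exp (g z).re := by
    intro z
    rw [norm_mul, Complex.norm_exp]
    norm_num
  refine ⟨fun z => (3 / 32 : ℂ) * Complex.exp (g z), (hgd.cexp).const_mul _, ?_, ?_,
    (c0 + 1) + (2 - ε) * |Real.log (2 / (1 - σ))|, ?_⟩
  · intro z _
    exact mul_ne_zero (by norm_num) (Complex.exp_ne_zero _)
  · intro z hz
    rw [hnorm]
    have := hg2 z hz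
    have h1 : 0 < 1 - ‖z‖ := by linarith
    calc 3 / 32 * Real.exp (g z).re ≤ 3 / 32 * (2 / (1 - ‖z‖) ^ 2) := by gcongr
      _ = _ := by field_simp; norm_num
  · intro s0 hs0
    obtain ⟨j, hj⟩ := exists_nat_gt (max 1 (-Real.log σ / s0))
    have hj1 : (1 : ℝ) < j := (le_max_left _ _).trans_lt hj
    have hj2 : -Real.log σ / s0 < j := (le_max_right _ _).trans_lt hj
    have T := hT j
    set m := mm (S j) with hm
    set ρ := rr (S j) with hρ
    have hm1 := T.hm
    have hm0 : (0 : ℝ) < m := by exact_mod_cast hm1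
    have hρ1 : ρ < 1 := T.ρR.trans_lt (S (j + 1)).2.R1
    have hlogm : (j : ℝ) ≤ Real.log m := by have := T.hl; rwa [hn] at this
    have hmj : (j : ℝ) ≤ m := hlogm.trans
      ((Real.log_le_sub_one_of_pos hm0).trans (by linarith))
    have hlogm0 : 0 ≤ Real.log m := by linarith
    have hls : Real.log σ < 0 := Real.log_neg hσ hσ1
    set s := (1 - ρ) / 2 with hs
    have hs_pos : 0 < s := by rw [hs]; linarith
    have hρs : 1 - 2 * s = ρ := by rw [hs]; ring
    refine ⟨s, hs_pos, ?_, ?_⟩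
    · have h1 : Real.log ρ = Real.log σ / m := by
        rw [← T.ρpow, Real.log_pow]; field_simp
      have h2 : Real.log ρ + 1 ≤ ρ := by
        have := Real.add_one_le_exp (Real.log ρ)
        rwa [Real.exp_log T.ρ0] at this
      have h3 : 1 - ρ ≤ -Real.log σ / m := by
        rw [h1] at h2
        have : -Real.log σ / m = -(Real.log σ / m) := by ring
        linarith
      have h4 : -Real.log σ / m < s0 := by
        rw [div_lt_iff₀ hm0]
        rw [div_lt_iff₀ hs0] at hj2
        nlinarith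
      rw [hs]; linarith
    · rw [hρs]
      -- pointwise lower bound on the circle
      have hρR : ρ ≤ (S (j + 1)).1.R := T.ρR
      set F : ℂ → ℝ := fun z => (2 - 2 * δ) * Real.log m * max 0 (phi (z ^ m)).re +
        ((S j).1.g z).re - (S j).1.M - (c0 + 1) with hF
      have hpt : ∀ z ∈ sphere (0 : ℂ) |ρ|, F z ≤
          Real.posLog ‖(3 / 32 : ℂ) * Complex.exp (g z)‖ := by
        intro z hz
        rw [abs_of_pos T.ρ0, mem_sphere_zero_iff_norm] at hz
        have hz1 : ‖z‖ < 1 := by rw [hz]; exact hρ1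
        have h1 := hgk (j + 1) 0 z (by rw [hz]; exact hρR)
        rw [zero_add, pow_zero, div_one, dist_eq_norm] at h1
        have h2 : |((S (j + 1)).1.g z - g z).re| ≤ 1 := (Complex.abs_re_le_norm _).trans h1
        rw [Complex.sub_re, T.hg z, Complex.add_re, blk_re] at h2
        have h3 := (abs_le.1 h2).2
        have h4 : Real.log ‖(3 / 32 : ℂ) * Complex.exp (g z)‖ = -c0 + (g z).re := by
          rw [hnorm, Real.log_mul (by norm_num) (Real.exp_ne_zero _), Real.log_exp, hc0]; ring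
        rw [Real.posLog_apply, h4]
        have h5 : (2 - 2 * δ) * Real.log m * max 0 (phi (z ^ m)).re =
            max 0 ((2 - 2 * δ) * Real.log m * (phi (z ^ m)).re) := by
          rw [mul_max_of_nonneg _ _ (mul_nonneg (by linarith) hlogm0), mul_zero]
        have h6 := max_ineq (A := (2 - 2 * δ) * Real.log m * (phi (z ^ m)).re)
          (X := ((S j).1.g z).re) (c := c0 + 1) (M := (S j).1.M)
          ((S j).2.re_le z hz1) (S j).2.M0 (by linarith)
        simp only [hF]
        rw [h5]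
        refine h6.trans (max_le_max le_rfl ?_)
        linarith
      have hsph : sphere (0 : ℂ) ρ ⊆ ball 0 1 :=
        sphere_subset_closedBall.trans (closedBall_subset_ball hρ1)
      have hI0 : CircleIntegrable (fun z => max 0 (phi z).re) 0 (ρ ^ m) := by
        rw [T.ρpow]
        have : Continuous fun θ : ℝ => max 0 (phi (circleMap 0 σ θ)).re :=
          continuous_const.max (phi_cont_circle hσ hσ1)
        exact this.intervalIntegrable _ _
      have hI1 : CircleIntegrable (fun z : ℂ => (2 - 2 * δ) * Real.log m *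
          max 0 (phi (z ^ m)).re) 0 ρ := by
        apply ContinuousOn.circleIntegrable T.ρ0.le
        refine continuousOn_const.mul
          (((continuous_const (y := (0 : ℝ))).max continuous_id).comp_continuousOn ?_)
        refine Complex.continuous_re.comp_continuousOn (phi_differentiable.continuousOn.comp
          (continuous_pow m).continuousOn fun z hz => ?_)
        have := hsph hz
        rw [mem_ball_zero_iff] at this ⊢
        exact pow_mem hm1 this
      have hI2 : CircleIntegrable (fun z : ℂ => ((S j).1.g z).re) 0 ρ := by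
        apply ContinuousOn.circleIntegrable T.ρ0.le
        exact Complex.continuous_re.comp_continuousOn ((S j).2.diff.continuousOn.mono hsph)
      have hI3 : CircleIntegrable F 0 ρ :=
        (((hI1.add hI2).sub (circleIntegrable_const _ _ _)).sub (circleIntegrable_const _ _ _))
      have hI4 : CircleIntegrable
          (fun z => Real.posLog ‖(3 / 32 : ℂ) * Complex.exp (g z)‖) 0 ρ := by
        apply ContinuousOn.circleIntegrable T.ρ0.le
        exact Real.continuous_posLog.comp_continuousOn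
          (((hgd.cexp).const_mul _).continuousOn.mono hsph).norm
      have hav := Real.circleAverage_mono hI3 hI4 hpt
      have hre : Real.circleAverage (fun z : ℂ => ((S j).1.g z).re) 0 ρ = 0 := by
        have hd : DiffContOnCl ℂ (S j).1.g (ball 0 |ρ|) := by
          rw [abs_of_pos T.ρ0]
          refine DifferentiableOn.diffContOnCl ?_
          rw [closure_ball _ T.ρ0.ne']
          exact (S j).2.diff.mono (closedBall_subset_ball hρ1)
        have h1 := hd.circleAverage
        have hI5 : CircleIntegrable (S j).1.g 0 ρ := by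
          apply ContinuousOn.circleIntegrable T.ρ0.le
          exact (S j).2.diff.continuousOn.mono hsph
        have h2 := Complex.reCLM.circleAverage_comp_comm hI5
        rw [h1, (S j).2.zero] at h2
        have h3 : Real.circleAverage (⇑Complex.reCLM ∘ (S j).1.g) 0 ρ = 0 := by simpa using h2
        exact h3
      have hval : Real.circleAverage F 0 ρ = (2 - 2 * δ) * Real.log m *
          Real.circleAverage (fun z => max 0 (phi z).re) 0 σ - (S j).1.M - (c0 + 1) := by
        have e1 : Real.circleAverage F 0 ρ = Real.circleAverage (fun z : ℂ => (2 - 2 * δ) *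
            Real.log m * max 0 (phi (z ^ m)).re + ((S j).1.g z).re - (S j).1.M) 0 ρ
            - (c0 + 1) := by
          have := Real.circleAverage_fun_sub (f₁ := fun z : ℂ => (2 - 2 * δ) *
            Real.log m * max 0 (phi (z ^ m)).re + ((S j).1.g z).re - (S j).1.M)
            (f₂ := fun _ => c0 + 1) ((hI1.add hI2).sub (circleIntegrable_const (S j).1.M 0 ρ))
            (circleIntegrable_const (c0 + 1) 0 ρ)
          rw [Real.circleAverage_const] at this
          exact this
        have e2 : Real.circleAverage (fun z : ℂ => (2 - 2 * δ) *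
            Real.log m * max 0 (phi (z ^ m)).re + ((S j).1.g z).re - (S j).1.M) 0 ρ =
            Real.circleAverage (fun z : ℂ => (2 - 2 * δ) *
            Real.log m * max 0 (phi (z ^ m)).re + ((S j).1.g z).re) 0 ρ - (S j).1.M := by
          have := Real.circleAverage_fun_sub (f₁ := fun z : ℂ => (2 - 2 * δ) *
            Real.log m * max 0 (phi (z ^ m)).re + ((S j).1.g z).re)
            (f₂ := fun _ => (S j).1.M) (hI1.add hI2) (circleIntegrable_const (S j).1.M 0 ρ)
          rw [Real.circleAverage_const] at this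
          exact this
        have e3 : Real.circleAverage (fun z : ℂ => (2 - 2 * δ) *
            Real.log m * max 0 (phi (z ^ m)).re + ((S j).1.g z).re) 0 ρ =
            Real.circleAverage (fun z : ℂ => (2 - 2 * δ) * Real.log m *
              max 0 (phi (z ^ m)).re) 0 ρ + 0 := by
          have := Real.circleAverage_fun_add hI1 hI2
          rw [hre] at this
          exact this
        have e4 : Real.circleAverage (fun z : ℂ => (2 - 2 * δ) * Real.log m *
              max 0 (phi (z ^ m)).re) 0 ρ = (2 - 2 * δ) * Real.log m *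
              Real.circleAverage (fun z : ℂ => max 0 (phi (z ^ m)).re) 0 ρ :=
          Real.circleAverage_fun_smul (a := (2 - 2 * δ) * Real.log m)
            (f := fun z : ℂ => max 0 (phi (z ^ m)).re)
        have e5 := circleAverage_pow (fun z => max 0 (phi z).re) hm1 ρ hI0
        rw [T.ρpow] at e5
        rw [e1, e2, e3, e4, e5]
        ring
      rw [hval] at hav
      refine le_trans ?_ hav
      -- numeric estimate
      have h1 : (1 - σ) / m ≤ 1 - ρ := by
        have hb := one_add_mul_le_pow (show (-2 : ℝ) ≤ ρ - 1 by linarith [T.ρ0]) m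
        have h2 : (1 + (ρ - 1)) ^ m = σ := by rw [← T.ρpow]; congr 1; ring
        rw [h2] at hb
        rw [div_le_iff₀ hm0]
        linarith
      have h3 : 1 / s ≤ m * (2 / (1 - σ)) := by
        rw [div_le_iff₀ hs_pos, hs]
        have h4 : 0 < 1 - σ := by linarith
        rw [div_le_iff₀ hm0] at h1
        rw [show (m : ℝ) * (2 / (1 - σ)) * ((1 - ρ) / 2) = ((1 - ρ) * m) / (1 - σ) by
          field_simp, le_div_iff₀ h4]
        linarith
      have h5 : Real.log (1 / s) ≤ Real.log m + Real.log (2 / (1 - σ)) := by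
        have h4 : 0 < 1 - σ := by linarith
        rw [← Real.log_mul hm0.ne' (by positivity)]
        exact Real.log_le_log (by positivity) h3
      have h6 : Real.log (2 / (1 - σ)) ≤ |Real.log (2 / (1 - σ))| := le_abs_self _
      have h7 := T.hM
      have h8 : (2 - ε) * Real.log (1 / s) ≤ (2 - ε) * Real.log m +
          (2 - ε) * |Real.log (2 / (1 - σ))| := by
        have : 0 ≤ 2 - ε := by linarith
        nlinarith
      have h9 : (2 - 2 * δ) * Real.log m * (1 - δ) ≤ (2 - 2 * δ) * Real.log m *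
          Real.circleAverage (fun z => max 0 (phi z).re) 0 σ :=
        mul_le_mul_of_nonneg_left hκ (mul_nonneg (by linarith) hlogm0)
      have h10 : (2 - ε) * Real.log m ≤ (2 - 2 * δ) * Real.log m * (1 - δ) - δ * Real.log m := by
        have : ε = 5 * δ := by rw [hδd]; ring
        rw [this]
        nlinarith [mul_nonneg (mul_nonneg hδ.le hδ.le) hlogm0]
      linarith

lemma prox_eq (f : ℂ → ℂ) (r : ℝ) :
    prox f r = Real.circleAverage (fun z => Real.posLog ‖f z‖) 0 r := by
  rw [prox, Real.circleAverage_def, smul_eq_mul]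
  simp only [circleMap, zero_add]

section inverse
variable {w : ℂ → ℂ} (hw : DifferentiableOn ℂ w (ball 0 1)) (h0 : w 0 ≠ 0)
include hw h0

lemma w_order_ne_top {z : ℂ} (hz : z ∈ ball (0 : ℂ) 1) : meromorphicOrderAt w z ≠ ⊤ := by
  have hA : AnalyticOnNhd ℂ w (ball 0 1) := hw.analyticOnNhd isOpen_ball
  have hm : MeromorphicOn w (ball 0 1) := hA.meromorphicOn
  have h0m : (0 : ℂ) ∈ ball (0 : ℂ) 1 := mem_ball_self one_pos
  have h1 : meromorphicOrderAt w 0 ≠ ⊤ := by
    rw [(hA 0 h0m).meromorphicOrderAt_eq, (hA 0 h0m).analyticOrderAt_eq_zero.2 h0]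
    simp
  have h2 := hm.exists_meromorphicOrderAt_ne_top_iff_forall
    ⟨⟨0, h0m⟩, (convex_ball (0 : ℂ) 1).isPreconnected⟩
  exact h2.1 ⟨⟨0, h0m⟩, h1⟩ ⟨z, hz⟩

lemma count_eq {r : ℝ} (hr : 0 < r) (hr1 : r < 1) :
    count w⁻¹ r = ∑ᶠ u, (MeromorphicOn.divisor w (closedBall 0 r) u : ℝ) *
      Real.log (r * ‖(0 : ℂ) - u‖⁻¹) := by
  have hA : AnalyticOnNhd ℂ w (ball 0 1) := hw.analyticOnNhd isOpen_ball
  have hAr : AnalyticOnNhd ℂ w (closedBall 0 r) := hA.mono (closedBall_subset_ball hr1)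
  set D := MeromorphicOn.divisor w (closedBall 0 r) with hD
  have hfin : (Function.support D).Finite := D.finiteSupport (isCompact_closedBall 0 r)
  have hD0 : ∀ u, 0 ≤ D u := fun u => MeromorphicOn.AnalyticOnNhd.divisor_nonneg hAr u
  have hpm : ∀ u ∈ closedBall (0 : ℂ) r, (poleMult w⁻¹ u : ℝ) = D u := by
    intro u hu
    have h1 : D u = (meromorphicOrderAt w u).untop₀ :=
      MeromorphicOn.divisor_apply hAr.meromorphicOn hu
    rw [poleMult, meromorphicOrderAt_inv, WithTop.untop₀_neg, neg_neg, ← h1]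
    have := hD0 u
    exact_mod_cast Int.toNat_of_nonneg this
  have hz0 : D 0 = 0 := by
    have h0m : (0 : ℂ) ∈ closedBall (0 : ℂ) r := mem_closedBall_self hr.le
    rw [hD, MeromorphicOn.divisor_apply hAr.meromorphicOn h0m,
      (hAr 0 h0m).meromorphicOrderAt_eq, (hAr 0 h0m).analyticOrderAt_eq_zero.2 h0]
    simp
  classical
  set S := hfin.toFinset with hS
  have hn : ∀ t, t ≤ r → nPoles w⁻¹ t = ∑ u ∈ S, if ‖u‖ ≤ t then (D u : ℝ) else 0 := by
    intro t ht
    rw [nPoles, finsum_mem_def]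
    rw [finsum_eq_sum_of_support_subset (s := S)]
    · refine Finset.sum_congr rfl fun u _ => ?_
      by_cases hu : ‖u‖ ≤ t
      · rw [if_pos hu, indicator_of_mem (by simpa using hu), hpm u (by simpa using hu.trans ht)]
      · rw [if_neg hu, indicator_of_notMem (by simpa using hu)]
    · intro u hu
      rw [Function.mem_support] at hu
      have hu1 : u ∈ closedBall (0 : ℂ) t := by
        by_contra hc
        exact hu (indicator_of_notMem hc _)
      rw [indicator_of_mem hu1] at hu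
      rw [hS, Finite.coe_toFinset, Function.mem_support]
      intro hc
      rw [hpm u (closedBall_subset_closedBall ht hu1), hc] at hu
      simp at hu
  have hn0 : nPoles w⁻¹ 0 = 0 := by
    rw [hn 0 hr.le]
    refine Finset.sum_eq_zero fun u _ => ?_
    by_cases hu : ‖u‖ ≤ 0
    · rw [if_pos hu]
      have : u = 0 := by simpa using hu
      rw [this, hz0]; simp
    · rw [if_neg hu]
  have hSpos : ∀ u ∈ S, 0 < ‖u‖ ∧ ‖u‖ ≤ r := by
    intro u hu
    rw [hS, Finite.mem_toFinset, Function.mem_support] at hu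
    constructor
    · rw [norm_pos_iff]; rintro rfl; exact hu hz0
    · have := D.supportWithinDomain (Function.mem_support.2 hu)
      simpa using this
  have hterm : ∀ u ∈ S, IntegrableOn (fun t => (D u : ℝ) *
      (Ici ‖u‖).indicator (fun t : ℝ => 1 / t) t) (Ioc 0 r) ∧
      ∫ t in Ioc 0 r, (D u : ℝ) * (Ici ‖u‖).indicator (fun t : ℝ => 1 / t) t =
      (D u : ℝ) * Real.log (r * ‖(0 : ℂ) - u‖⁻¹) := by
    intro u hu
    obtain ⟨hu0, hur⟩ := hSpos u hu
    have hset : Ioc 0 r ∩ Ici ‖u‖ = Icc ‖u‖ r := by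
      ext t; constructor
      · rintro ⟨h1, h2⟩; exact ⟨h2, h1.2⟩
      · rintro ⟨h1, h2⟩; exact ⟨⟨hu0.trans_le h1, h2⟩, h1⟩
    have hint : IntegrableOn (fun t : ℝ => 1 / t) (Icc ‖u‖ r) := by
      apply ContinuousOn.integrableOn_Icc
      exact continuousOn_const.div continuousOn_id fun t ht => (hu0.trans_le ht.1).ne'
    constructor
    · refine Integrable.const_mul ?_ _
      rw [integrable_indicator_iff measurableSet_Ici, IntegrableOn,
        Measure.restrict_restrict measurableSet_Ici, inter_comm, hset]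
      exact hint
    · rw [integral_const_mul, setIntegral_indicator measurableSet_Ici, hset,
        integral_Icc_eq_integral_Ioc, ← intervalIntegral.integral_of_le hur,
        integral_one_div_of_pos hu0 hr, zero_sub, norm_neg, div_eq_mul_inv]
  have hI : count w⁻¹ r = ∑ u ∈ S, ∫ t in Ioc 0 r, (D u : ℝ) *
      (Ici ‖u‖).indicator (fun t : ℝ => 1 / t) t := by
    rw [count, hn0, zero_mul, add_zero, intervalIntegral.integral_of_le hr.le,
      ← integral_finsetSum _ fun u hu => (hterm u hu).1]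
    refine setIntegral_congr_fun measurableSet_Ioc fun t ht => ?_
    simp only [sub_zero]
    rw [hn t ht.2, Finset.sum_div]
    refine Finset.sum_congr rfl fun u _ => ?_
    by_cases hu : ‖u‖ ≤ t
    · rw [if_pos hu, indicator_of_mem (show t ∈ Ici ‖u‖ from hu)]; ring
    · rw [if_neg hu, indicator_of_notMem (show t ∉ Ici ‖u‖ from hu)]; ring
  rw [hI, finsum_eq_sum_of_support_subset (s := S)]
  · exact Finset.sum_congr rfl fun u hu => (hterm u hu).2
  · intro u hu
    rw [hS, Finite.coe_toFinset, Function.mem_support]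
    intro hc
    rw [Function.mem_support, hc] at hu
    simp at hu

lemma charT_eq {r : ℝ} (hr : 0 < r) (hr1 : r < 1) :
    charT w⁻¹ r = Real.circleAverage (fun z => Real.posLog ‖w z‖) 0 r - Real.log ‖w 0‖ := by
  have hA : AnalyticOnNhd ℂ w (ball 0 1) := hw.analyticOnNhd isOpen_ball
  have hAr : AnalyticOnNhd ℂ w (closedBall 0 r) := hA.mono (closedBall_subset_ball hr1)
  have habs : |r| = r := abs_of_pos hr
  have hj := AnalyticOnNhd.circleAverage_log_norm (c := 0) (R := r) (f := w) hr.ne'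
    (by rw [habs]; exact hAr) h0
  rw [habs, ← count_eq hw h0 hr hr1] at hj
  have hm : MeromorphicOn w (sphere 0 |r|) := by
    rw [habs]; exact (hAr.mono sphere_subset_closedBall).meromorphicOn
  have h1 : prox w⁻¹ r = Real.circleAverage (fun z => Real.posLog ‖w z‖) 0 r -
      Real.circleAverage (fun z => Real.log ‖w z‖) 0 r := by
    rw [prox_eq, ← Real.circleAverage_fun_sub hm.circleIntegrable_posLog_norm
      hm.circleIntegrable_log_norm]
    congr 1
    ext z
    rw [Pi.inv_apply, norm_inv, ← Real.posLog_sub_posLog_inv]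
    ring
  rw [charT, h1, hj]
  ring

end inverse

theorem exists_f {η : ℝ} (hη : 0 < η) :
    ∃ f : ℂ → ℂ, InClass f ∧ ((1 - η : ℝ) : EReal) ≤ alpha f ∧ alpha f ≤ 1 := by
  set ε := min (η / 5) (1 / 6) with hεd
  have hε : 0 < ε := lt_min (by positivity) (by norm_num)
  have hε1 : ε < 1 := (min_le_right _ _).trans_lt (by norm_num)
  have hε6 : ε ≤ 1 / 6 := min_le_right _ _
  have hεη : 5 * ε ≤ η := by have := min_le_left (η / 5) (1 / 6 : ℝ); linarith
  obtain ⟨G, hGd, hG0, hGb, C, hGC⟩ := exists_G hε hε1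
  obtain ⟨w, hw, hwG, hwb, hw0⟩ := riccati hGd hGb
  have h0 : w 0 ≠ 0 := by rw [hw0]; norm_num
  have hA : AnalyticOnNhd ℂ w (ball 0 1) := hw.analyticOnNhd isOpen_ball
  have hlw : Real.log ‖w 0‖ = -Real.log 4 := by
    rw [hw0]; norm_num
    rw [one_div, Real.log_inv]
  have hT : ∀ r, 0 < r → r < 1 → charT w⁻¹ r =
      Real.circleAverage (fun z => Real.posLog ‖w z‖) 0 r + Real.log 4 := by
    intro r hr hr1
    rw [charT_eq hw h0 hr hr1, hlw]; ring
  have hlog4 : 0 < Real.log 4 := Real.log_pos (by norm_num)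
  -- upper bound
  have hup : alpha w⁻¹ ≤ 1 := by
    refine limsup_le_of_le (by isBoundedDefault) ?_
    have hev : ∀ᶠ r : ℝ in 𝓝[<] 1, 3 / 4 < r ∧ r < 1 := Ioo_mem_nhdsLT (by norm_num)
    filter_upwards [hev] with r hr
    have hr0 : 0 < r := by linarith [hr.1]
    have hp : 0 < 1 - r := by linarith [hr.2]
    have hneg : Real.log (1 - r) < 0 := Real.log_neg hp (by linarith)
    have hx : 1 ≤ 1 / 4 / (1 - r) := by rw [le_div_iff₀ hp]; linarith [hr.1]
    have hm : Real.circleAverage (fun z => Real.posLog ‖w z‖) 0 r ≤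
        -Real.log (1 - r) - Real.log 4 := by
      refine Real.circleAverage_mono_on_of_le_circle ?_ ?_
      · have : MeromorphicOn w (sphere 0 |r|) := by
          rw [abs_of_pos hr0]
          exact (hA.mono (sphere_subset_closedBall.trans
            (closedBall_subset_ball hr.2))).meromorphicOn
        exact this.circleIntegrable_posLog_norm
      · intro z hz
        rw [abs_of_pos hr0, mem_sphere_zero_iff_norm] at hz
        have h1 := hwb z (by linarith [hr.2])
        rw [hz] at h1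
        refine (Real.posLog_le_posLog (norm_nonneg _) h1).trans (le_of_eq ?_)
        rw [Real.posLog_eq_log (by rw [abs_of_pos (by positivity)]; exact hx),
          Real.log_div (by norm_num) hp.ne', Real.log_div (by norm_num) (by norm_num),
          Real.log_one]
        ring
    have h2 : charT w⁻¹ r / (-Real.log (1 - r)) ≤ 1 := by
      rw [div_le_one (by linarith), hT r hr0 hr.2]
      linarith
    exact_mod_cast h2
  refine ⟨w⁻¹, ⟨?_, ?_, ?_, ?_⟩, ?_, hup⟩
  · exact meromorphicNFOn_inv.2 hA.meromorphicNFOn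
  · exact hup.trans_lt (by exact_mod_cast EReal.coe_lt_top 1)
  · intro z hz
    have h1 := (hA z hz).meromorphicOrderAt_nonneg
    have h2 := w_order_ne_top hw h0 hz
    rw [meromorphicOrderAt_inv]
    obtain ⟨n, hn⟩ := WithTop.ne_top_iff_exists.1 h2
    rw [← hn] at h1 ⊢
    have h3 : (0 : ℤ) ≤ n := by exact_mod_cast h1
    have h4 : -((n : ℤ) : WithTop ℤ) = ((-n : ℤ) : WithTop ℤ) := rfl
    rw [h4]
    exact_mod_cast (by linarith : -n ≤ 0)
  · intro z hz hf hd
    have hz1 : ‖z‖ < 1 := by simpa using hz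
    have hwz : w z ≠ 0 := by
      intro hwz
      have h1 := hf.meromorphicOrderAt_nonneg
      rw [meromorphicOrderAt_inv] at h1
      have h2 := w_order_ne_top hw h0 hz
      have h3 : 1 ≤ meromorphicOrderAt w z := by
        have h4 : analyticOrderAt w z ≠ 0 := by
          rw [Ne, (hA z hz).analyticOrderAt_eq_zero]; exact not_not.2 hwz
        rw [(hA z hz).meromorphicOrderAt_eq]
        rw [(hA z hz).meromorphicOrderAt_eq] at h2
        obtain ⟨k, hk⟩ := ENat.ne_top_iff_exists.1 (show analyticOrderAt w z ≠ ⊤ by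
          intro hc; rw [hc] at h2; exact h2 rfl)
        rw [← hk] at h4 ⊢
        have h5 : 1 ≤ k := Nat.one_le_iff_ne_zero.2 (by rintro rfl; exact h4 rfl)
        have h6 : (1 : ℤ) ≤ k := by exact_mod_cast h5
        rw [ENat.map_natCast]
        exact_mod_cast h6
      obtain ⟨n, hn⟩ := WithTop.ne_top_iff_exists.1 h2
      rw [← hn] at h1 h3
      have h4 : -((n : ℤ) : WithTop ℤ) = ((-n : ℤ) : WithTop ℤ) := rfl
      rw [h4] at h1
      have h5 : (0 : ℤ) ≤ -n := by exact_mod_cast h1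
      have h6 : (1 : ℤ) ≤ n := by exact_mod_cast h3
      linarith
    have hda : HasDerivAt w (deriv w z) z := (hA z hz).differentiableAt.hasDerivAt
    have h1 := (hda.inv hwz).deriv
    rw [h1] at hd
    have h2 := hwG z hz1
    apply hG0 z hz1
    rw [← h2]
    field_simp at hd
    linear_combination -hd
  · -- lower bound
    by_contra hcon
    push Not at hcon
    have hev := eventually_lt_of_limsup_lt hcon (by isBoundedDefault)
    have hev2 : ∀ᶠ r : ℝ in 𝓝[<] 1, charT w⁻¹ r / (-Real.log (1 - r)) < 1 - η := by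
      filter_upwards [hev] with r hr
      exact_mod_cast hr
    obtain ⟨r0, hr0, hr0'⟩ := mem_nhdsLT_iff_exists_Ioo_subset.1 hev2
    have hr01 : r0 < 1 := hr0
    -- the constant
    set C1 := 4 * Real.log (17 / 4) - 3 * Real.log 4 + 4 * C with hC1
    set s0 := min (min (1 / 4) ((1 - r0) / 3)) (min (1 / 4) (Real.exp (-(|C1| / ε + 1)))) with hs0
    have hs0p : 0 < s0 := lt_min (lt_min (by norm_num) (by linarith)) (lt_min (by norm_num)
      (Real.exp_pos _))
    obtain ⟨s, hs, hss, hav⟩ := hGC s0 hs0p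
    have hs4 : s ≤ 1 / 4 := hss.le.trans ((min_le_left _ _).trans (min_le_left _ _))
    have hsr : s < (1 - r0) / 3 := hss.trans_le ((min_le_left _ _).trans (min_le_right _ _))
    have hse : s < Real.exp (-(|C1| / ε + 1)) :=
      hss.trans_le ((min_le_right _ _).trans (min_le_right _ _))
    set ℓ := Real.log (1 / s) with hℓ
    have hℓs : ℓ = -Real.log s := by rw [hℓ, one_div, Real.log_inv]
    have hℓbig : |C1| / ε + 1 < ℓ := by
      have := Real.log_lt_log hs hse
      rw [Real.log_exp] at this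
      rw [hℓs]; linarith
    have hℓ0 : 0 < ℓ := by
      have : 0 ≤ |C1| / ε := by positivity
      linarith
    have hμ : ∀ r, (1 - 2 * s) - s / 4 ≤ r → r ≤ (1 - 2 * s) + s / 4 →
        Real.circleAverage (fun z => Real.posLog ‖w z‖) 0 r ≤ (1 - 5 * ε) * ℓ := by
      intro r h1 h2
      have hr1 : r < 1 := by linarith
      have hrpos : 0 < r := by linarith
      have hrr : r0 < r := by linarith
      have h3 := hr0' ⟨hrr, hr1⟩
      simp only [mem_ofPred_eq] at h3
      have h4 : s ≤ 1 - r := by linarith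
      have h5 : 1 - r < 1 := by linarith
      have h6 : Real.log (1 - r) < 0 := Real.log_neg (by linarith) h5
      have h7 : charT w⁻¹ r < (1 - η) * (-Real.log (1 - r)) := by
        rwa [div_lt_iff₀ (by linarith)] at h3
      rw [hT r hrpos hr1] at h7
      have h8 : -Real.log (1 - r) ≤ ℓ := by
        rw [hℓs]; linarith [Real.log_le_log hs h4]
      have h9 : (1 - η) * (-Real.log (1 - r)) ≤ (1 - 5 * ε) * ℓ := by
        calc (1 - η) * (-Real.log (1 - r)) ≤ (1 - 5 * ε) * (-Real.log (1 - r)) := by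
              apply mul_le_mul_of_nonneg_right (by linarith) (by linarith)
          _ ≤ _ := by
              apply mul_le_mul_of_nonneg_left h8 (by linarith)
      linarith
    have hmain := main_ineq hw hwG hGd.continuousOn hwb hs hs4 rfl hμ
    have e1 : Real.log (17 / (4 * s)) = Real.log (17 / 4) + ℓ := by
      rw [hℓ, ← Real.log_mul (by norm_num) (by positivity)]; congr 1; field_simp
    have e2 : Real.log (1 / (4 * s)) = ℓ - Real.log 4 := by
      rw [hℓ, one_div, Real.log_inv, Real.log_mul (by norm_num) hs.ne', one_div, Real.log_inv]; ring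
    rw [e1, e2] at hmain
    have h10 : ε * ℓ ≤ C1 := by
      rw [hC1]
      nlinarith
    have h11 : |C1| < ε * ℓ := by
      have h12 : |C1| / ε < ℓ := by linarith
      rw [div_lt_iff₀ hε] at h12
      linarith
    linarith [le_abs_self C1]

/-- The supremum `A*` of `alpha f` over the class of the problem is at least `1`. More precisely,
for every `η > 0` some `f` in the class has `1 - η ≤ alpha f ≤ 1`. -/
theorem result :
    (1 : EReal) ≤ sSup {a : EReal | ∃ f : ℂ → ℂ, InClass f ∧ a = alpha f} ∧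
    ∀ η : ℝ, 0 < η → ∃ f : ℂ → ℂ, InClass f ∧ ((1 - η : ℝ) : EReal) ≤ alpha f ∧ alpha f ≤ 1 := by
  refine ⟨?_, fun η hη => exists_f hη⟩
  refine le_of_forall_lt fun c hc => ?_
  induction c with
  | bot =>
    obtain ⟨f, h1, h2, -⟩ := exists_f (η := 1) one_pos
    exact (lt_of_lt_of_le (EReal.bot_lt_coe _) h2).trans_le (le_sSup ⟨f, h1, rfl⟩)
  | top => exact absurd hc (by simp)
  | coe x =>
    have hx : x < 1 := by exact_mod_cast hc
    obtain ⟨f, h1, h2, -⟩ := exists_f (η := (1 - x) / 2) (by linarith)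
    refine (lt_of_lt_of_le ?_ h2).trans_le (le_sSup ⟨f, h1, rfl⟩)
    exact_mod_cast (by linarith : x < 1 - (1 - x) / 2)

end Pool.Agent.Results.MP_6ac3f6_an.LowerBoundOne
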